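import Pool.Agent.FBM.G.StmtS

/-!
# FBM block G2, module BIG: the big pieces
-/

open Set Metric MeasureTheory Filter Topology
open FBM.F (GoodD PosP FIn)

namespace Pool.Agent.FBM
namespace G2

namespace BIG

theorem pt_nonneg {D : Dat} {X : Fin 3 → ℝ → ℝ} (h : PosP D X) {z : ℂ}
    (hz : z ∈ closedBall (0 : ℂ) 1) (i : Fin 3) : 0 ≤ pt X z i := by
  rw [mem_closedBall_zero_iff] at hz
  rcases hz.lt_or_eq with hlt | heq
  · exact (h.pos z (mem_ball_zero_iff.2 hlt) i).le
  · have e : Complex.exp ((Complex.arg z : ℝ) * Complex.I) = z := by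
      have := Complex.norm_mul_exp_arg_mul_I z
      rwa [heq, Complex.ofReal_one, one_mul] at this
    rw [← e]
    by_cases hc : Complex.arg z ∈ closure (D.Z i)
    · exact (h.bzero _ i hc).ge
    · exact (h.bpos _ i hc).le

theorem sq_one {s : ℝ} (hs : s = 1 ∨ s = -1) : s * s = 1 := by
  rcases hs with rfl | rfl <;> norm_num

theorem abs_one' {s : ℝ} (hs : s = 1 ∨ s = -1) : |s| = 1 := by
  rcases hs with rfl | rfl <;> norm_num

theorem mk3_apply (v : Fin 3 → ℝ) (j : Fin 3) : mk3 v j = v j := rfl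

end BIG

open BIG

theorem t_BIG : Stmt_BIG := by
  intro D X lam T h s hs
  have him : ∀ w ∈ closedBall (0 : ℂ) 1, (-2 : ℝ) ≤ w.im := by
    intro w hw
    rw [mem_closedBall_zero_iff] at hw
    have := Complex.abs_im_le_norm w
    have := neg_abs_le w.im
    linarith
  refine ⟨{
    c := 2
    K := closedBall 0 1
    V := ball 0 1
    O := ball 0 1
    F := fun w => (mk3 fun j => s j * pt X w j, w)
    G := fun j z => (s j : ℂ) * hz (X j) z
    U := {p | ‖p.2‖ < 1 ∧ ∀ j, 0 < s j * p.1 j}
    Kc := isCompact_closedBall _ _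
    Kh := him
    VK := ball_subset_closedBall
    Oo := isOpen_ball
    VO := by
      ext w
      exact ⟨fun hw => ⟨hw, him w (ball_subset_closedBall hw)⟩, fun hw => hw.1⟩
    mem := ?_
    cont := ?_
    inj := ?_
    Uo := ?_
    img := ?_
    an := fun j => (h.fin.hol j).const_mul _
    conf := ?_
    imm := ?_
    eq := ?_
    bd := ?_ }, rfl, rfl, fun _ => rfl, rfl⟩
  · intro w hw
    refine ⟨mem_closedBall_zero_iff.1 hw, fun i => ?_⟩
    change |s i * pt X w i| = pt X w i
    rw [abs_mul, abs_one' (hs i), one_mul, abs_of_nonneg (pt_nonneg h.pos hw i)]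
  · refine ContinuousOn.prodMk ?_ continuousOn_id
    refine (PiLp.continuous_toLp 2 _).comp_continuousOn (continuousOn_pi.2 fun j => ?_)
    exact (h.pos.cont j).const_mul (s j)
  · intro w _ w' _ e
    exact congrArg Prod.snd e
  · have e : {p : Euc 3 × ℂ | ‖p.2‖ < 1 ∧ ∀ j, 0 < s j * p.1 j} =
        {p | ‖p.2‖ < 1} ∩ ⋂ j, {p | 0 < s j * p.1 j} := by
      ext p
      simp
    rw [e]
    refine (isOpen_lt (continuous_norm.comp continuous_snd) continuous_const).inter
      (isOpen_iInter_of_finite fun j => ?_)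
    refine isOpen_lt continuous_const ?_
    exact continuous_const.mul ((PiLp.continuous_apply 2 _ j).comp continuous_fst)
  · ext p
    constructor
    · rintro ⟨w, hw, rfl⟩
      refine ⟨⟨(mem_ball_zero_iff.1 hw).le, fun i => ?_⟩, mem_ball_zero_iff.1 hw, fun j => ?_⟩
      · change |s i * pt X w i| = pt X w i
        rw [abs_mul, abs_one' (hs i), one_mul, abs_of_nonneg (h.pos.pos w hw i).le]
      · change 0 < s j * (s j * pt X w j)
        rw [← mul_assoc, sq_one (hs j), one_mul]
        exact h.pos.pos w hw j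
    · rintro ⟨⟨_, h2⟩, h3, h4⟩
      refine ⟨p.2, mem_ball_zero_iff.2 h3, ?_⟩
      refine Prod.ext ?_ rfl
      change (mk3 fun j => s j * pt X p.2 j) = p.1
      apply PiLp.ext
      intro j
      rw [mk3_apply, ← h2 j]
      have h5 : |p.1 j| = s j * p.1 j := by
        rw [← abs_of_pos (h4 j), abs_mul, abs_one' (hs j), one_mul]
      rw [h5, ← mul_assoc, sq_one (hs j), one_mul]
  · intro w hw
    have h1 : ∀ j, deriv (fun z => (s j : ℂ) * hz (X j) z) w ^ 2 = deriv (hz (X j)) w ^ 2 := by
      intro j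
      rw [deriv_const_mul_field, mul_pow]
      have : (s j : ℂ) ^ 2 = 1 := by
        rw [sq, ← Complex.ofReal_mul, sq_one (hs j), Complex.ofReal_one]
      rw [this, one_mul]
    rw [Finset.sum_congr rfl fun j _ => h1 j]
    exact h.fin.crit.conf w (mem_ball_zero_iff.1 hw)
  · intro w hw
    obtain ⟨j, hj⟩ := h.int w hw
    refine ⟨j, ?_⟩
    rw [deriv_const_mul_field]
    refine mul_ne_zero ?_ hj
    rw [Ne, Complex.ofReal_eq_zero]
    intro h0
    have := sq_one (hs j)
    rw [h0] at this
    norm_num at this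
  · intro w hw j
    change s j * pt X w j = ((s j : ℂ) * hz (X j) w).re
    rw [Complex.re_ofReal_mul, ← h.fin.eq j w hw]
    rfl
  · intro w hw h0
    exfalso
    have h1 := Complex.abs_im_le_norm w
    rw [h0] at h1
    have h2 : ‖w‖ < 1 := mem_ball_zero_iff.1 hw
    norm_num at h1
    linarith

end G2
end Pool.Agent.FBM
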