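import Pool.Agent.FBM.G.StmtS
import Pool.Agent.FBM.E.PSI

/-!
# FBM block G2, CNC: conformality and immersion at corners and junctions
-/

open Set Metric MeasureTheory Filter Topology
open FBM.F (GoodD PosP FIn)

namespace Pool.Agent.FBM
namespace G2

namespace CNC

variable {D : Dat} {X : Fin 3 → ℝ → ℝ} {lam : ℝ → ℝ} {T : Fin 3 → ℝ → ℝ} {θ ρ : ℝ}
  {eR eL : Edge} {G : Fin 3 → ℂ → ℂ}

/-- the open first quadrant of the disc -/
def Qd (ρ : ℝ) : Set ℂ := {w | ‖w‖ < ρ ∧ 0 < w.re ∧ 0 < w.im}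

lemma isOpen_Qd (ρ : ℝ) : IsOpen (Qd ρ) := by
  have h1 : IsOpen {w : ℂ | ‖w‖ < ρ} := isOpen_lt continuous_norm continuous_const
  have h2 : IsOpen {w : ℂ | 0 < w.re} := isOpen_lt continuous_const Complex.continuous_re
  have h3 : IsOpen {w : ℂ | 0 < w.im} := isOpen_lt continuous_const Complex.continuous_im
  exact h1.inter (h2.inter h3)

lemma psi_sq (hP : PsiQ) (hρ : ρ < 1) {w : ℂ} (hw : w ∈ Qd ρ) :
    ‖w ^ 2‖ < 1 ∧ psi θ (w ^ 2) ∈ ball (0 : ℂ) 1 := by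
  obtain ⟨h1, h2, h3⟩ := hw
  have hw1 : ‖w‖ < 1 := h1.trans hρ
  have hv1 : ‖w ^ 2‖ < 1 := by
    rw [norm_pow]
    exact pow_lt_one₀ (norm_nonneg _) hw1 two_ne_zero
  have him : 0 < (w ^ 2).im := by
    rw [sq, Complex.mul_im]
    positivity
  refine ⟨hv1, ?_⟩
  rw [mem_ball_zero_iff]
  exact (hP.nlt θ _ hv1).2 him

lemma quad (hP : PsiQ) (h : GIn D X lam T) (hL : LocCor X θ eR eL ρ G) {w : ℂ} (hw : w ∈ Qd ρ) :
    ∑ j, deriv (G j) w ^ 2 = 0 := by
  obtain ⟨hv1, hpsi⟩ := psi_sq (θ := θ) hP hL.pos.2 hw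
  have hpd := PSI.hasDerivAt_psi θ hv1
  have hsq : HasDerivAt (fun u : ℂ => u ^ 2) ((2 : ℕ) * w ^ (2 - 1)) w := hasDerivAt_pow 2 w
  have hc := HasDerivAt.comp (h₂ := psi θ) (h := fun u : ℂ => u ^ 2) w hpd hsq
  change HasDerivAt (fun u : ℂ => psi θ (u ^ 2)) _ w at hc
  have hG : ∀ j, deriv (G j) w = deriv (hz (X j)) (psi θ (w ^ 2)) *
      deriv (fun u : ℂ => psi θ (u ^ 2)) w := by
    intro j
    have h1 : HasDerivAt (hz (X j)) (deriv (hz (X j)) (psi θ (w ^ 2))) (psi θ (w ^ 2)) :=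
      ((h.fin.hol j).differentiableAt (isOpen_ball.mem_nhds hpsi)).hasDerivAt
    have h2 := HasDerivAt.comp (h₂ := hz (X j)) (h := fun u : ℂ => psi θ (u ^ 2)) w h1 hc
    change HasDerivAt (fun u : ℂ => hz (X j) (psi θ (u ^ 2))) _ w at h2
    have heq : G j =ᶠ[𝓝 w] fun u => hz (X j) (psi θ (u ^ 2)) := by
      filter_upwards [(isOpen_Qd ρ).mem_nhds hw] with u hu
      rw [hL.eq j u hu.1 hu.2.1.le hu.2.2.le, h.fin.eq j _ (psi_sq hP hL.pos.2 hu).2]
    rw [heq.deriv_eq, h2.deriv, hc.deriv]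
  have h3 := h.fin.crit.conf (psi θ (w ^ 2)) (mem_ball_zero_iff.1 hpsi)
  have h4 : ∑ j, deriv (G j) w ^ 2 = (∑ j, deriv (hz (X j)) (psi θ (w ^ 2)) ^ 2) *
      deriv (fun u : ℂ => psi θ (u ^ 2)) w ^ 2 := by
    rw [Finset.sum_mul]
    exact Finset.sum_congr rfl fun j _ => by rw [hG j, mul_pow]
  rw [h4, h3, zero_mul]

end CNC

open CNC in
theorem t_CNC (hPSQ : Stmt_PSQ) : Stmt_CNC := by
  intro D X lam T h θ eR eL ρ G hL hj
  have hρ := hL.pos.1
  have hd : ∀ j, DifferentiableOn ℂ (deriv (G j)) (ball 0 ρ) := fun j =>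
    (hL.an j).deriv isOpen_ball
  constructor
  · have hdiff : DifferentiableOn ℂ (fun w => ∑ j, deriv (G j) w ^ 2) (ball 0 ρ) :=
      DifferentiableOn.fun_sum fun j _ => (hd j).pow 2
    have han := hdiff.analyticOnNhd isOpen_ball
    let z₀ : ℂ := ⟨ρ / 4, ρ / 4⟩
    have hz₀ : z₀ ∈ Qd ρ := by
      refine ⟨?_, ?_, ?_⟩
      · have h1 := Complex.norm_le_abs_re_add_abs_im z₀
        have h2 : |z₀.re| = ρ / 4 := abs_of_pos (by change 0 < ρ / 4; positivity)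
        have h3 : |z₀.im| = ρ / 4 := abs_of_pos (by change 0 < ρ / 4; positivity)
        linarith [h1, h2, h3]
      · change 0 < ρ / 4
        positivity
      · change 0 < ρ / 4
        positivity
    have h0 : (fun w => ∑ j, deriv (G j) w ^ 2) =ᶠ[𝓝 z₀] 0 := by
      filter_upwards [(isOpen_Qd ρ).mem_nhds hz₀] with w hw
      exact quad hPSQ h hL hw
    have heq := han.eqOn_zero_of_preconnected_of_eventuallyEq_zero
      (convex_ball _ _).isPreconnected (mem_ball_zero_iff.2 hz₀.1) h0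
    intro w hw
    exact heq (mem_ball_zero_iff.2 hw)
  · obtain ⟨j, hj⟩ := hj
    have hc : ContinuousAt (deriv (G j)) 0 :=
      (hd j).continuousOn.continuousAt (isOpen_ball.mem_nhds (mem_ball_self hρ))
    obtain ⟨ε, hε, hball⟩ := Metric.eventually_nhds_iff_ball.1 (hc.eventually_ne hj)
    refine ⟨min (ε / 2) (ρ / 2), by positivity, ?_, fun w hw => ⟨j, hball w ?_⟩⟩
    · exact (min_le_right _ _).trans_lt (by linarith)
    · rw [mem_ball_zero_iff]
      exact (hw.trans (min_le_left _ _)).trans_lt (by linarith)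

end G2
end Pool.Agent.FBM
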