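import Pool.Agent.FBM.G.StmtS
import Pool.Agent.FBM.E.PSI

/-!
# FBM block G2, CNR: conformality and immersion at interior points of the edges
-/

open Set Metric MeasureTheory Filter Topology
open FBM.F (GoodD PosP FIn)

namespace Pool.Agent.FBM
namespace G2

namespace CNR

variable {D : Dat} {X : Fin 3 → ℝ → ℝ} {lam : ℝ → ℝ} {T : Fin 3 → ℝ → ℝ} {θ ρ : ℝ}
  {e : Edge} {G : Fin 3 → ℂ → ℂ}

/-- the open upper half disc -/
def Hd (ρ : ℝ) : Set ℂ := {w | ‖w‖ < ρ ∧ 0 < w.im}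

lemma isOpen_Hd (ρ : ℝ) : IsOpen (Hd ρ) := by
  have h1 : IsOpen {w : ℂ | ‖w‖ < ρ} := isOpen_lt continuous_norm continuous_const
  have h3 : IsOpen {w : ℂ | 0 < w.im} := isOpen_lt continuous_const Complex.continuous_im
  exact h1.inter h3

lemma psi_mem (hP : PsiQ) (hρ : ρ < 1) {w : ℂ} (hw : w ∈ Hd ρ) :
    ‖w‖ < 1 ∧ psi θ w ∈ ball (0 : ℂ) 1 := by
  obtain ⟨h1, h3⟩ := hw
  have hw1 : ‖w‖ < 1 := h1.trans hρ
  refine ⟨hw1, ?_⟩
  rw [mem_ball_zero_iff]
  exact (hP.nlt θ _ hw1).2 h3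

lemma quad (hP : PsiQ) (h : GIn D X lam T) (hL : LocReg X θ e ρ G) {w : ℂ} (hw : w ∈ Hd ρ) :
    ∑ j, deriv (G j) w ^ 2 = 0 := by
  obtain ⟨hv1, hpsi⟩ := psi_mem (θ := θ) hP hL.pos.2 hw
  have hc := PSI.hasDerivAt_psi θ hv1
  have hG : ∀ j, deriv (G j) w = deriv (hz (X j)) (psi θ w) * deriv (psi θ) w := by
    intro j
    have h1 : HasDerivAt (hz (X j)) (deriv (hz (X j)) (psi θ w)) (psi θ w) :=
      ((h.fin.hol j).differentiableAt (isOpen_ball.mem_nhds hpsi)).hasDerivAt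
    have h2 := HasDerivAt.comp (h₂ := hz (X j)) (h := psi θ) w h1 hc
    change HasDerivAt (fun u : ℂ => hz (X j) (psi θ u)) _ w at h2
    have heq : G j =ᶠ[𝓝 w] fun u => hz (X j) (psi θ u) := by
      filter_upwards [(isOpen_Hd ρ).mem_nhds hw] with u hu
      rw [hL.eq j u hu.1 hu.2.le, h.fin.eq j _ (psi_mem hP hL.pos.2 hu).2]
    rw [heq.deriv_eq, h2.deriv, hc.deriv]
  have h3 := h.fin.crit.conf (psi θ w) (mem_ball_zero_iff.1 hpsi)
  have h4 : ∑ j, deriv (G j) w ^ 2 = (∑ j, deriv (hz (X j)) (psi θ w) ^ 2) *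
      deriv (psi θ) w ^ 2 := by
    rw [Finset.sum_mul]
    exact Finset.sum_congr rfl fun j _ => by rw [hG j, mul_pow]
  rw [h4, h3, zero_mul]

end CNR

open CNR in
theorem t_CNR (hPSQ : Stmt_PSQ) : Stmt_CNR := by
  intro D X lam T h θ e ρ G hL hj
  have hρ := hL.pos.1
  have hd : ∀ j, DifferentiableOn ℂ (deriv (G j)) (ball 0 ρ) := fun j =>
    (hL.an j).deriv isOpen_ball
  constructor
  · have hdiff : DifferentiableOn ℂ (fun w => ∑ j, deriv (G j) w ^ 2) (ball 0 ρ) :=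
      DifferentiableOn.fun_sum fun j _ => (hd j).pow 2
    have han := hdiff.analyticOnNhd isOpen_ball
    let z₀ : ℂ := ⟨0, ρ / 2⟩
    have hz₀ : z₀ ∈ Hd ρ := by
      refine ⟨?_, ?_⟩
      · have h1 := Complex.norm_le_abs_re_add_abs_im z₀
        have h2 : |z₀.re| = 0 := by change |(0 : ℝ)| = 0; exact abs_zero
        have h3 : |z₀.im| = ρ / 2 := abs_of_pos (by change 0 < ρ / 2; positivity)
        linarith [h1, h2, h3]
      · change 0 < ρ / 2
        positivity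
    have h0 : (fun w => ∑ j, deriv (G j) w ^ 2) =ᶠ[𝓝 z₀] 0 := by
      filter_upwards [(isOpen_Hd ρ).mem_nhds hz₀] with w hw
      exact quad hPSQ h hL hw
    have heq := han.eqOn_zero_of_preconnected_of_eventuallyEq_zero
      (convex_ball _ _).isPreconnected (mem_ball_zero_iff.2 hz₀.1) h0
    intro w hw
    exact heq (mem_ball_zero_iff.2 hw)
  · obtain ⟨j, hj⟩ := hj
    have hc : ContinuousAt (deriv (G j)) 0 :=
      (hd j).continuousOn.continuousAt (isOpen_ball.mem_nhds (mem_ball_self hρ))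
    obtain ⟨ε, hε, hball⟩ := Metric.eventually_nhds_iff_ball.1 (hc.eventually_ne hj)
    refine ⟨min (ε / 2) (ρ / 2), by positivity, ?_, fun w hw => ⟨j, hball w ?_⟩⟩
    · exact (min_le_right _ _).trans_lt (by linarith)
    · rw [mem_ball_zero_iff]
      exact (hw.trans (min_le_left _ _)).trans_lt (by linarith)

end G2
end Pool.Agent.FBM
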