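import Pool.Agent.FBM.G.StmtS

/-!
# FBM block G2, module CO1: pieces at corners, and at junctions with the free edge on the right
-/

open Set Metric MeasureTheory Filter Topology
open FBM.F (GoodD PosP FIn)

namespace Pool.Agent.FBM
namespace G2

namespace CO1

theorem deriv_smul (s : ℝ) (g : ℂ → ℂ) (w : ℂ) :
    deriv (fun z => (s : ℂ) * g z) w = (s : ℂ) * deriv g w := by
  rw [deriv_const_mul_field]

theorem sq_one {s : ℝ} (h : s = 1 ∨ s = -1) : s ^ 2 = 1 := by
  rcases h with h | h <;> rw [h] <;> norm_num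

theorem sq_oneC {s : ℝ} (h : s = 1 ∨ s = -1) : (s : ℂ) ^ 2 = 1 := by
  rw [← Complex.ofReal_pow, sq_one h, Complex.ofReal_one]

theorem ne_zeroC {s : ℝ} (h : s = 1 ∨ s = -1) : (s : ℂ) ≠ 0 := by
  intro h0
  have := sq_oneC h
  rw [h0] at this
  norm_num at this

theorem sph {G : Fin 3 → ℂ → ℂ} {ρ : ℝ} {j : Fin 3} (hR : OnReal G ρ .H) (hI : OnImag G ρ (.W j))
    {x : ℝ} (hx : |x| < ρ) : ∑ k, (G k (x : ℂ)).re ^ 2 = 1 := by
  rcases le_total 0 x with h | h
  · exact hR x h (by rwa [abs_of_nonneg h] at hx)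
  · have h1 := hR (-x) (by linarith) (by rwa [abs_of_nonpos h] at hx)
    rw [← h1]
    refine Finset.sum_congr rfl fun k _ => ?_
    have h2 := hI k ((-x : ℝ) : ℂ) (by rw [Complex.norm_real, Real.norm_eq_abs, abs_neg]; exact hx)
    have h3 : -(starRingEnd ℂ) ((-x : ℝ) : ℂ) = (x : ℂ) := by
      rw [Complex.conj_ofReal]
      push_cast
      ring
    rw [h3] at h2
    rw [h2]
    split_ifs <;> ring

end CO1

open CO1 in
theorem t_CO1 (hSGC : Stmt_SGC) (hCNC : Stmt_CNC) (hFLD : Stmt_FLD) (hFL0 : Stmt_FL0) :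
    Stmt_CO1 := by
  intro D X lam T hG θ eR j hR hL hne p hp hp2
  obtain ⟨ρ, G, hC, hPR, -, hd⟩ := hG.corP θ eR (.W j) hR hL hne
  obtain ⟨r1, hr10, hr1ρ, hSg⟩ := hSGC D X lam T hG θ eR (.W j) ρ G hR hL hne hC
  obtain ⟨hconf, r2, hr20, hr2ρ, himm⟩ := hCNC D X lam T hG θ eR (.W j) ρ G hC hd
  set r := min r1 r2 with hr
  have hr0 : 0 < r := lt_min hr10 hr20
  have hrρ : r < ρ := (min_le_left _ _).trans_lt hr1ρ
  have hr1 : r < 1 := hrρ.trans hC.pos.2
  have hS := hSg r hr0 (min_le_left _ _)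
  obtain ⟨s, hs, hs0⟩ := hFL0 X θ eR (some (.W j)) r G hr0 hr1 hS p hp hp2
  obtain ⟨hKc, hmem, hcont, hinj, ⟨U, hUo, hUi⟩, hnull⟩ :=
    hFLD X θ eR (some (.W j)) r G s hr0 hr1 (by simpa using hne.symm) hS hs
  -- the common part
  have key : ∀ c : ℝ, (∀ w ∈ KK eR (some (.W j)) r, -c ≤ w.im) →
      VV eR (some (.W j)) r = ball 0 r ∩ {w | -c ≤ w.im} →
      (∀ w ∈ VV eR (some (.W j)) r, w.im = -c → ∑ k, (((s k : ℂ) * G k w)).re ^ 2 = 1 ∧
        ∃ κ : ℝ, ∀ k, (deriv (fun z => (s k : ℂ) * G k z) w).im = κ * ((s k : ℂ) * G k w).re) →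
      ∃ R : Raw X, p ∈ R.F '' R.V ∧ volume {w | w ∈ R.V ∧ ‖(R.F w).2‖ = 1} = 0 := by
    intro c hK hV hbd
    have hVr : ∀ w ∈ VV eR (some (.W j)) r, ‖w‖ < r := fun w hw => hw.1
    refine ⟨{ c := c, K := KK eR (some (.W j)) r, V := VV eR (some (.W j)) r, O := ball 0 r,
              F := FF θ eR (some (.W j)) s G, G := fun k z => (s k : ℂ) * G k z, U := U,
              Kc := hKc, Kh := hK, VK := fun w hw => ⟨hw.1.le, hw.2⟩, Oo := isOpen_ball,
              VO := hV, mem := hmem, cont := hcont, inj := hinj, Uo := hUo, img := hUi,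
              an := ?_, conf := ?_, imm := ?_, eq := ?_, bd := hbd }, ⟨0, ?_, hs0⟩, hnull⟩
    · intro k
      exact ((hC.an k).mono (ball_subset_ball hrρ.le)).const_mul _
    · intro w hw
      simp only [deriv_smul, mul_pow, sq_oneC (hs _), one_mul]
      exact hconf w ((hVr w hw).trans hrρ)
    · intro w hw
      obtain ⟨k, hk⟩ := himm w ((hVr w hw).le.trans (min_le_right _ _))
      refine ⟨k, ?_⟩
      change deriv (fun z => (s k : ℂ) * G k z) w ≠ 0
      rw [deriv_smul]
      exact mul_ne_zero (ne_zeroC (hs k)) hk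
    · intro w hw k
      change s k * (G k w).re = ((s k : ℂ) * G k w).re
      rw [Complex.re_ofReal_mul]
    · refine ⟨by simpa using hr0, fun _ => le_of_eq Complex.zero_im.symm, fun h => ?_⟩
      simp at h
  cases eR with
  | H =>
    refine key 0 (fun w hw => by simpa using hw.2.1 rfl) ?_ ?_
    · ext w
      constructor
      · intro hw
        exact ⟨by simpa using hw.1, by simpa using hw.2.1 rfl⟩
      · rintro ⟨h1, h2⟩
        refine ⟨by simpa using h1, fun _ => by simpa using h2, fun h => ?_⟩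
        simp at h
    · intro w hw him
      have hw1 : ‖w‖ < ρ := hw.1.trans hrρ
      obtain ⟨x, rfl⟩ : ∃ x : ℝ, w = (x : ℂ) := ⟨w.re, by
        apply Complex.ext
        · simp
        · simpa using him⟩
      have hx : |x| < ρ := by rwa [Complex.norm_real, Real.norm_eq_abs] at hw1
      refine ⟨?_, ?_⟩
      · simp only [Complex.re_ofReal_mul, mul_pow, sq_one (hs _), one_mul]
        exact sph hC.bdR hC.bdL hx
      · obtain ⟨κ, hκ⟩ := hPR rfl x hx
        refine ⟨κ, fun k => ?_⟩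
        rw [deriv_smul, Complex.im_ofReal_mul, Complex.re_ofReal_mul, hκ k]
        ring
  | W i =>
    refine key 2 ?_ ?_ ?_
    · intro w hw
      have h1 := Complex.abs_im_le_norm w
      have h2 := (abs_le.1 (h1.trans hw.1)).1
      linarith
    · ext w
      constructor
      · intro hw
        refine ⟨by simpa using hw.1, ?_⟩
        have h1 := Complex.abs_im_le_norm w
        have h2 := (abs_le.1 (h1.trans hw.1.le)).1
        change (-2 : ℝ) ≤ w.im
        linarith
      · rintro ⟨h1, h2⟩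
        refine ⟨by simpa using h1, fun h => ?_, fun h => ?_⟩
        · simp at h
        · simp at h
    · intro w hw him
      exfalso
      have h1 := Complex.abs_im_le_norm w
      have h2 := (abs_le.1 (h1.trans hw.1.le)).1
      linarith

end G2
end Pool.Agent.FBM
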