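import Pool.Agent.FBM.G.StmtS

/-!
# FBM block G2, module CPT: the surface is compact, nonempty, and lies in the unit ball
-/

open Set Metric MeasureTheory Filter Topology
open FBM.F (GoodD PosP FIn)

namespace Pool.Agent.FBM
namespace G2

namespace CPT

/-- the points of the closed disc satisfy `∑ pt ^ 2 ≤ 1` -/
theorem sum_le {D : Dat} {X : Fin 3 → ℝ → ℝ} (h : PosP D X) {z : ℂ}
    (hz : z ∈ closedBall (0 : ℂ) 1) : ∑ i, pt X z i ^ 2 ≤ 1 := by
  have hc : ContinuousOn (fun z : ℂ => ∑ i, pt X z i ^ 2) (closedBall 0 1) :=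
    continuousOn_finsetSum _ fun i _ => (h.cont i).pow 2
  have hcl : IsClosed (closedBall (0 : ℂ) 1 ∩ (fun z : ℂ => ∑ i, pt X z i ^ 2) ⁻¹' Iic 1) :=
    hc.preimage_isClosed_of_isClosed isClosed_closedBall isClosed_Iic
  have hsub : ball (0 : ℂ) 1 ⊆
      closedBall (0 : ℂ) 1 ∩ (fun z : ℂ => ∑ i, pt X z i ^ 2) ⁻¹' Iic 1 := by
    intro w hw
    exact ⟨ball_subset_closedBall hw, (h.lt_one w hw).le⟩
  have h2 := closure_minimal hsub hcl
  rw [closure_ball (0 : ℂ) one_ne_zero] at h2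
  exact (h2 hz).2

theorem norm_le {D : Dat} {X : Fin 3 → ℝ → ℝ} (h : PosP D X) {p : Euc 3 × ℂ}
    (hp : p ∈ SSet X) : ‖p.1‖ ≤ 1 := by
  have h1 := sum_le h (z := p.2) (by simpa using hp.1)
  rw [EuclideanSpace.norm_eq]
  have h2 : ∑ i, ‖p.1 i‖ ^ 2 = ∑ i, pt X p.2 i ^ 2 := by
    refine Finset.sum_congr rfl fun i _ => ?_
    rw [Real.norm_eq_abs, hp.2 i]
  rw [h2]
  calc Real.sqrt (∑ i, pt X p.2 i ^ 2) ≤ Real.sqrt 1 := Real.sqrt_le_sqrt h1
    _ = 1 := Real.sqrt_one

theorem closed {D : Dat} {X : Fin 3 → ℝ → ℝ} (h : PosP D X) : IsClosed (SSet X) := by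
  have hs : IsClosed ((univ : Set (Euc 3)) ×ˢ closedBall (0 : ℂ) 1) :=
    isClosed_univ.prod isClosed_closedBall
  have hf : ContinuousOn (fun p : Euc 3 × ℂ => fun i : Fin 3 => |p.1 i| - pt X p.2 i)
      ((univ : Set (Euc 3)) ×ˢ closedBall (0 : ℂ) 1) := by
    rw [continuousOn_pi]
    intro i
    apply ContinuousOn.sub
    · exact Continuous.continuousOn (by fun_prop)
    · exact (h.cont i).comp continuous_snd.continuousOn fun p hp => hp.2
  have h3 := hf.preimage_isClosed_of_isClosed hs (isClosed_singleton (x := (0 : Fin 3 → ℝ)))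
  have e : SSet X = ((univ : Set (Euc 3)) ×ˢ closedBall (0 : ℂ) 1) ∩
      (fun p : Euc 3 × ℂ => fun i : Fin 3 => |p.1 i| - pt X p.2 i) ⁻¹' {0} := by
    ext p
    constructor
    · intro hp
      refine ⟨⟨mem_univ _, by simpa using hp.1⟩, ?_⟩
      rw [mem_preimage, mem_singleton_iff]
      funext i
      rw [hp.2 i, sub_self, Pi.zero_apply]
    · rintro ⟨h1, h2⟩
      rw [mem_preimage, mem_singleton_iff] at h2
      refine ⟨by simpa using h1.2, fun i => ?_⟩
      have h4 := congrFun h2 i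
      rw [Pi.zero_apply] at h4
      exact sub_eq_zero.1 h4
  rw [e]
  exact h3

end CPT

theorem t_CPT : Stmt_CPT := by
  intro D X h
  refine ⟨?_, ?_, fun p hp => CPT.norm_le h hp⟩
  · have hc : IsCompact (closedBall (0 : Euc 3) 1 ×ˢ closedBall (0 : ℂ) 1) :=
      (isCompact_closedBall _ _).prod (isCompact_closedBall _ _)
    refine hc.of_isClosed_subset (CPT.closed h) ?_
    intro p hp
    exact ⟨by simpa using CPT.norm_le h hp, by simpa using hp.1⟩
  · refine ⟨(mk3 fun i => pt X 0 i, 0), by simp, fun i => ?_⟩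
    have h1 := h.pos 0 (mem_ball_self one_pos) i
    simpa [mk3] using h1.le

end G2
end Pool.Agent.FBM
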