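import Pool.Agent.FBM.G.StmtS

/-!
# FBM, block G2, module EDP: positivity on the edges near a boundary point
-/

open Set Metric MeasureTheory Filter Topology
open FBM.F (GoodD PosP FIn)

namespace Pool.Agent.FBM
namespace G2

namespace EDP

theorem notMem_of_edge {D : Dat} {s : ℝ} {e : Edge} {j : Fin 3} (h : OnEdge D s e)
    (hj : e ≠ .W j) : s ∉ D.Z j := by
  cases e with
  | W i =>
    have h' : s ∈ D.Z i ∧ s ∉ D.H ∧ ∀ j, j ≠ i → s ∉ D.Z j := h
    exact h'.2.2 j fun e => hj (by rw [e])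
  | H =>
    have h' : s ∈ D.H ∧ ∀ j, s ∉ D.Z j := h
    exact h'.2 j

theorem right {D : Dat} {θ : ℝ} {e : Edge} (h : EdgeR D θ e) :
    ∃ δ > 0, ∀ t ∈ Ioo θ (θ + δ), OnEdge D t e := by
  obtain ⟨u, hu, hs⟩ := mem_nhdsGT_iff_exists_Ioo_subset.1 h
  have hu' : θ < u := hu
  exact ⟨u - θ, by linarith, fun t ht => hs ⟨ht.1, by linarith [ht.2]⟩⟩

theorem left {D : Dat} {θ : ℝ} {e : Edge} (h : EdgeL D θ e) :
    ∃ δ > 0, ∀ t ∈ Ioo (θ - δ) θ, OnEdge D t e := by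
  obtain ⟨u, hu, hs⟩ := mem_nhdsLT_iff_exists_Ioo_subset.1 h
  have hu' : u < θ := hu
  exact ⟨θ - u, by linarith, fun t ht => hs ⟨by linarith [ht.1], ht.2⟩⟩

theorem notMem_closure {Z : Set ℝ} {a b t : ℝ} (ht : t ∈ Ioo a b) (h : ∀ s ∈ Ioo a b, s ∉ Z) :
    t ∉ closure Z := by
  intro hc
  obtain ⟨s, hs1, hs2⟩ := mem_closure_iff.1 hc (Ioo a b) isOpen_Ioo ht
  exact h s hs1 hs2

end EDP

open EDP in
theorem t_EDP : Stmt_EDP := by
  intro D X hD hX θ eR eL hR hL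
  obtain ⟨δ1, h1, hr⟩ := right hR
  obtain ⟨δ2, h2, hl⟩ := left hL
  refine ⟨?_, min δ1 δ2, lt_min h1 h2, ?_, ?_⟩
  · intro j hjR hjL
    apply hX.bpos
    apply notMem_closure (a := θ - δ2) (b := θ + δ1) ⟨by linarith, by linarith⟩
    intro s hs
    rcases lt_trichotomy s θ with h | h | h
    · exact notMem_of_edge (hl s ⟨hs.1, h⟩) hjL
    · intro hZ
      rw [h] at hZ
      have hev : ∀ᶠ s in 𝓝[>] θ, s ∈ D.Z j :=
        mem_nhdsWithin_of_mem_nhds ((hD.op j).mem_nhds hZ)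
      obtain ⟨s', hs', hs''⟩ := (hev.and hR).exists
      exact notMem_of_edge hs'' hjR hs'
    · exact notMem_of_edge (hr s ⟨h, hs.2⟩) hjR
  · intro t ht1 ht2 j hj
    apply hX.bpos
    have := min_le_left δ1 δ2
    exact notMem_closure (a := θ) (b := θ + δ1) ⟨ht1, by linarith⟩
      fun s hs => notMem_of_edge (hr s hs) hj
  · intro t ht1 ht2 j hj
    apply hX.bpos
    have := min_le_right δ1 δ2
    exact notMem_closure (a := θ - δ2) (b := θ) ⟨by linarith, ht2⟩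
      fun s hs => notMem_of_edge (hl s hs) hj

end G2
end Pool.Agent.FBM
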