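import Pool.Agent.FBM.G.StmtS

/-!
# FBM block G2, module FL0

A point of the surface over a boundary point is the point with parameter zero for suitable signs.
-/

open Set Metric MeasureTheory Filter Topology

namespace Pool.Agent.FBM
namespace G2
namespace FL0

lemma fold_zero (eR : Edge) (eL : Option Edge) : fold eR eL 0 = 0 := by
  have hI : ∀ e : Edge, fI e 0 = 0 := by
    intro e
    cases e <;> simp [fI]
  have hR : fR eL 0 = 0 := by
    cases eL with
    | none => rfl
    | some e => exact hI e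
  apply Complex.ext
  · change fR eL (0 : ℂ).re = 0
    rw [Complex.zero_re, hR]
  · change fI eR (0 : ℂ).im = 0
    rw [Complex.zero_im, hI]

lemma psi_zero (θ : ℝ) : psi θ 0 = Complex.exp (θ * Complex.I) := by
  simp [psi]

lemma gc_zero (θ : ℝ) (eL : Option Edge) : gc θ eL 0 = Complex.exp (θ * Complex.I) := by
  cases eL with
  | none => exact psi_zero θ
  | some e =>
    change psi θ ((0 : ℂ) ^ 2) = _
    rw [zero_pow (by norm_num : (2 : ℕ) ≠ 0)]
    exact psi_zero θ

end FL0

theorem t_FL0 : Stmt_FL0 := by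
  intro X θ eR eL r G hr hr1 hS p hp hp2
  have h0 : (0 : ℂ) ∈ KK eR eL r := by
    refine ⟨?_, fun _ => ?_, fun _ => ?_⟩
    · simpa using hr.le
    · simp
    · simp
  have habs : ∀ j, |(G j 0).re| = |p.1 j| := by
    intro j
    rw [hS.abs 0 h0 j, FL0.fold_zero, FL0.gc_zero, ← hp2, hp.2 j]
  have hs : ∀ j, ∃ t : ℝ, (t = 1 ∨ t = -1) ∧ t * (G j 0).re = p.1 j := by
    intro j
    rcases abs_eq_abs.1 (habs j) with h | h
    · exact ⟨1, Or.inl rfl, by rw [one_mul, h]⟩
    · exact ⟨-1, Or.inr rfl, by rw [h]; ring⟩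
  choose s hs1 hs2 using hs
  refine ⟨s, hs1, ?_⟩
  apply Prod.ext
  · change mk3 (fun j => s j * (G j 0).re) = p.1
    have : (fun j => s j * (G j 0).re) = fun j => p.1 j := funext hs2
    rw [this]
    rfl
  · change gc θ eL (fold eR eL 0) = p.2
    rw [FL0.fold_zero, FL0.gc_zero, hp2]

end G2
end Pool.Agent.FBM
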