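import Pool.Agent.FBM.G.StmtS

/-!
# FBM block G2, module FLD: the folding lemma
-/

open Set Metric MeasureTheory Filter Topology
open FBM.F (GoodD PosP FIn)

namespace Pool.Agent.FBM
namespace G2

namespace FLD

theorem mul_self_one {s : ℝ} (hs : s = 1 ∨ s = -1) : s * s = 1 := by
  rcases hs with rfl | rfl <;> norm_num

theorem abs_one' {s : ℝ} (hs : s = 1 ∨ s = -1) : |s| = 1 := by
  rcases hs with rfl | rfl <;> norm_num

theorem abs_fI (e : Edge) (t : ℝ) : |fI e t| = |t| := by
  cases e with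
  | W i => exact abs_abs t
  | H => rfl

theorem abs_fR (e : Option Edge) (t : ℝ) : |fR e t| = |t| := by
  cases e with
  | none => rfl
  | some e => exact abs_fI e t

theorem fI_eq_zero {e : Edge} {t : ℝ} (h : fI e t = 0) : t = 0 := by
  rw [← abs_eq_zero, ← abs_fI e, h, abs_zero]

theorem fR_eq_zero {e : Option Edge} {t : ℝ} (h : fR e t = 0) : t = 0 := by
  rw [← abs_eq_zero, ← abs_fR e, h, abs_zero]

theorem continuous_fI (e : Edge) : Continuous (fI e) := by
  cases e with
  | W i => exact continuous_abs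
  | H => exact continuous_id

theorem continuous_fR (e : Option Edge) : Continuous (fR e) := by
  cases e with
  | none => exact continuous_id
  | some e => exact continuous_fI e

theorem norm_eq_of_abs {z w : ℂ} (h1 : |z.re| = |w.re|) (h2 : |z.im| = |w.im|) : ‖z‖ = ‖w‖ := by
  rw [Complex.norm_eq_sqrt_sq_add_sq, Complex.norm_eq_sqrt_sq_add_sq, ← sq_abs z.re,
    ← sq_abs z.im, h1, h2, sq_abs, sq_abs]

theorem norm_fold (eR : Edge) (eL : Option Edge) (w : ℂ) : ‖fold eR eL w‖ = ‖w‖ :=
  norm_eq_of_abs (abs_fR eL w.re) (abs_fI eR w.im)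

theorem continuous_fold (eR : Edge) (eL : Option Edge) : Continuous (fold eR eL) := by
  have e : fold eR eL = fun w : ℂ => ((fR eL w.re : ℝ) : ℂ) + ((fI eR w.im : ℝ) : ℂ) * Complex.I := by
    funext w
    apply Complex.ext <;> simp [fold]
  rw [e]
  have h1 : Continuous fun w : ℂ => ((fR eL w.re : ℝ) : ℂ) :=
    Complex.continuous_ofReal.comp ((continuous_fR eL).comp Complex.continuous_re)
  have h2 : Continuous fun w : ℂ => ((fI eR w.im : ℝ) : ℂ) :=
    Complex.continuous_ofReal.comp ((continuous_fI eR).comp Complex.continuous_im)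
  exact h1.add (h2.mul continuous_const)

theorem fI_nonneg {e : Edge} {t : ℝ} (h : e = .H → 0 ≤ t) : 0 ≤ fI e t := by
  cases e with
  | W i => exact abs_nonneg t
  | H => exact h rfl

theorem fR_nonneg {e : Option Edge} {t : ℝ} (h : e = some .H → 0 ≤ t) (hn : e ≠ none) :
    0 ≤ fR e t := by
  cases e with
  | none => exact absurd rfl hn
  | some e => exact fI_nonneg (fun h1 => h (by rw [h1]))

theorem fold_AA {eR : Edge} {eL : Option Edge} {w : ℂ} {r : ℝ} (h : ‖w‖ < r)
    (h1 : eR = .H → 0 ≤ w.im) (h2 : eL = some .H → 0 ≤ w.re) : fold eR eL w ∈ AA eL r :=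
  ⟨by rw [norm_fold]; exact h, fI_nonneg h1, fun hn => fR_nonneg h2 hn⟩

theorem fold_KK {eR : Edge} {eL : Option Edge} {w : ℂ} {r : ℝ} (hr : r < 1)
    (h : w ∈ KK eR eL r) : fold eR eL w ∈ AA eL 1 :=
  fold_AA (h.1.trans_lt hr) h.2.1 h.2.2

theorem VV_KK {eR : Edge} {eL : Option Edge} {r : ℝ} : VV eR eL r ⊆ KK eR eL r :=
  fun _ h => ⟨h.1.le, h.2.1, h.2.2⟩

theorem isClosed_imp {P : Prop} {S : Set ℂ} (hS : IsClosed S) : IsClosed {w : ℂ | P → w ∈ S} := by
  by_cases hP : P
  · have : {w : ℂ | P → w ∈ S} = S := by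
      ext w
      exact ⟨fun h => h hP, fun h _ => h⟩
    rw [this]
    exact hS
  · have : {w : ℂ | P → w ∈ S} = univ := by
      ext w
      exact ⟨fun _ => trivial, fun _ h => absurd h hP⟩
    rw [this]
    exact isClosed_univ

theorem isCompact_KK (eR : Edge) (eL : Option Edge) (r : ℝ) : IsCompact (KK eR eL r) := by
  have e : KK eR eL r = closedBall (0 : ℂ) r ∩ ({w | eR = .H → w ∈ {w : ℂ | 0 ≤ w.im}} ∩
      {w | eL = some .H → w ∈ {w : ℂ | 0 ≤ w.re}}) := by
    ext w
    constructor
    · intro h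
      exact ⟨mem_closedBall_zero_iff.2 h.1, h.2.1, h.2.2⟩
    · intro h
      exact ⟨mem_closedBall_zero_iff.1 h.1, h.2.1, h.2.2⟩
  rw [e]
  refine (isCompact_closedBall _ _).inter_right (IsClosed.inter ?_ ?_)
  · exact isClosed_imp (isClosed_le continuous_const Complex.continuous_im)
  · exact isClosed_imp (isClosed_le continuous_const Complex.continuous_re)

/-- two real numbers with the same absolute value and compatible signs -/
theorem eq_of_abs_sign {u v : ℝ} (h : |u| = |v|) (h1 : 0 < v → 0 ≤ u) (h2 : v < 0 → u ≤ 0) :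
    u = v := by
  rcases lt_trichotomy v 0 with hv | hv | hv
  · rw [abs_of_nonpos (h2 hv), abs_of_neg hv] at h
    linarith
  · rw [hv, abs_zero, abs_eq_zero] at h
    rw [h, hv]
  · rw [abs_of_nonneg (h1 hv), abs_of_pos hv] at h
    exact h

theorem eq_of_fI {e : Edge} {s t : ℝ} (h : fI e s = fI e t)
    (hs : ∀ i, e = .W i → (0 < s ↔ 0 < t) ∧ (s < 0 ↔ t < 0)) : s = t := by
  cases e with
  | H => exact h
  | W i =>
    obtain ⟨h1, h2⟩ := hs i rfl
    exact eq_of_abs_sign h (fun h3 => (h1.2 h3).le) (fun h3 => (h2.2 h3).le)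

theorem eq_of_fR {e : Option Edge} {s t : ℝ} (h : fR e s = fR e t)
    (hs : ∀ i, e = some (.W i) → (0 < s ↔ 0 < t) ∧ (s < 0 ↔ t < 0)) : s = t := by
  cases e with
  | none => exact h
  | some e => exact eq_of_fI h (fun i hi => hs i (by rw [hi]))

/-- choice of the unfolded coordinate -/
theorem unfI (e : Edge) (q : Fin 3 → ℝ) {t : ℝ} (ht : 0 ≤ t) : ∃ y : ℝ, (e = .H → 0 ≤ y) ∧
    fI e y = t ∧ ∀ i, e = .W i → (q i < 0 → y ≤ 0) ∧ (0 < q i → 0 ≤ y) := by
  cases e with
  | H => exact ⟨t, fun _ => ht, rfl, fun i hi => by cases hi⟩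
  | W i =>
    by_cases hq : q i < 0
    · refine ⟨-t, fun h => (by cases h), ?_, ?_⟩
      · change |-t| = t
        rw [abs_neg, abs_of_nonneg ht]
      · intro j hj
        cases hj
        exact ⟨fun _ => by linarith, fun h => by linarith⟩
    · refine ⟨t, fun h => (by cases h), ?_, ?_⟩
      · change |t| = t
        rw [abs_of_nonneg ht]
      · intro j hj
        cases hj
        exact ⟨fun h => absurd h hq, fun _ => ht⟩

theorem unfR (e : Option Edge) (q : Fin 3 → ℝ) {t : ℝ} (ht : e ≠ none → 0 ≤ t) :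
    ∃ y : ℝ, (e = some .H → 0 ≤ y) ∧ fR e y = t ∧
      ∀ i, e = some (.W i) → (q i < 0 → y ≤ 0) ∧ (0 < q i → 0 ≤ y) := by
  cases e with
  | none => exact ⟨t, fun h => (by cases h), rfl, fun i hi => (by cases hi)⟩
  | some e =>
    obtain ⟨y, h1, h2, h3⟩ := unfI e q (ht (by intro h; cases h))
    refine ⟨y, fun h => h1 (by injection h), h2, fun i hi => h3 i (by injection hi)⟩

theorem vol_im : volume {w : ℂ | w.im = 0} = 0 := by
  have e : {w : ℂ | w.im = 0} = ((LinearMap.ker Complex.imLm : Submodule ℝ ℂ) : Set ℂ) := by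
    ext w
    simp
  rw [e]
  refine Measure.addHaar_submodule _ _ ?_
  intro h
  have h1 : (Complex.I : ℂ) ∈ LinearMap.ker Complex.imLm := by rw [h]; trivial
  simp at h1

theorem vol_re : volume {w : ℂ | w.re = 0} = 0 := by
  have e : {w : ℂ | w.re = 0} = ((LinearMap.ker Complex.reLm : Submodule ℝ ℂ) : Set ℂ) := by
    ext w
    simp
  rw [e]
  refine Measure.addHaar_submodule _ _ ?_
  intro h
  have h1 : (1 : ℂ) ∈ LinearMap.ker Complex.reLm := by rw [h]; trivial
  simp at h1

end FLD

open FLD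

theorem t_FLD (hGCN : Stmt_GCN) : Stmt_FLD := by
  intro X θ eR eL r G s hr hr1 hne hS hs
  obtain ⟨gi, gcont, ⟨N, hNo, hN⟩, gn⟩ := hGCN θ eL r hr hr1.le
  have hreal : ∀ w : ℂ, ∀ j, (FF θ eR eL s G w).1 j = s j * (G j w).re := fun _ _ => rfl
  have hsnd : ∀ w : ℂ, (FF θ eR eL s G w).2 = gc θ eL (fold eR eL w) := fun _ => rfl
  have hmem : ∀ w ∈ KK eR eL r, FF θ eR eL s G w ∈ SSet X := by
    intro w hw
    refine ⟨(gn _ (fold_KK hr1 hw)).1, fun i => ?_⟩
    rw [hreal, abs_mul, abs_one' (hs i), one_mul]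
    exact hS.abs w hw i
  refine ⟨isCompact_KK eR eL r, hmem, ?_, ?_, ?_, ?_⟩
  · refine ContinuousOn.prodMk ?_ ?_
    · refine (PiLp.continuous_toLp 2 _).comp_continuousOn (continuousOn_pi.2 fun j => ?_)
      have h1 : ContinuousOn (G j) (KK eR eL r) :=
        (hS.cont j).mono fun w hw => mem_closedBall_zero_iff.2 hw.1
      exact (Complex.continuous_re.comp_continuousOn h1).const_mul (s j)
    · exact gcont.comp (continuous_fold eR eL).continuousOn fun w hw => fold_KK hr1 hw
  · intro w hw w' hw' e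
    have e2 : fold eR eL w = fold eR eL w' :=
      gi (fold_KK hr1 hw) (fold_KK hr1 hw') (congrArg Prod.snd e)
    have e1 : ∀ j, (G j w).re = (G j w').re := by
      intro j
      have h1 : s j * (G j w).re = s j * (G j w').re := by
        rw [← hreal, ← hreal, e]
      have h2 : s j ≠ 0 := by
        intro h
        have := mul_self_one (hs j)
        rw [h] at this
        norm_num at this
      exact mul_left_cancel₀ h2 h1
    apply Complex.ext
    · refine eq_of_fR (e := eL) (congrArg Complex.re e2) fun i hi => ?_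
      have a := hS.sL w hw i hi
      have b := hS.sL w' hw' i hi
      rw [e1 i] at a
      exact ⟨a.1.symm.trans b.1, a.2.symm.trans b.2⟩
    · refine eq_of_fI (e := eR) (congrArg Complex.im e2) fun i hi => ?_
      have a := hS.sR w hw i hi
      have b := hS.sR w' hw' i hi
      rw [e1 i] at a
      exact ⟨a.1.symm.trans b.1, a.2.symm.trans b.2⟩
  · refine ⟨{p | p.2 ∈ N} ∩ ⋂ j : Fin 3, {p | eR ≠ .W j → eL ≠ some (.W j) → 0 < s j * p.1 j},
      ?_, ?_⟩
    · refine (hNo.preimage continuous_snd).inter (isOpen_iInter_of_finite fun j => ?_)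
      have h1 : IsOpen {p : Euc 3 × ℂ | 0 < s j * p.1 j} :=
        isOpen_lt continuous_const
          (continuous_const.mul ((PiLp.continuous_apply 2 _ j).comp continuous_fst))
      by_cases hP : eR ≠ .W j ∧ eL ≠ some (.W j)
      · have : {p : Euc 3 × ℂ | eR ≠ .W j → eL ≠ some (.W j) → 0 < s j * p.1 j} =
            {p : Euc 3 × ℂ | 0 < s j * p.1 j} := by
          ext p
          exact ⟨fun h => h hP.1 hP.2, fun h _ _ => h⟩
        rw [this]
        exact h1
      · have : {p : Euc 3 × ℂ | eR ≠ .W j → eL ≠ some (.W j) → 0 < s j * p.1 j} = univ := by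
          ext p
          exact ⟨fun _ => trivial, fun _ h2 h3 => absurd ⟨h2, h3⟩ hP⟩
        rw [this]
        exact isOpen_univ
    · ext p
      constructor
      · rintro ⟨w, hw, rfl⟩
        refine ⟨hmem w (VV_KK hw), ?_, ?_⟩
        · have h1 : gc θ eL (fold eR eL w) ∈ closedBall (0 : ℂ) 1 ∩ N := by
            rw [hN]
            exact ⟨_, fold_AA hw.1 hw.2.1 hw.2.2, rfl⟩
          exact h1.2
        · refine mem_iInter.2 fun j => ?_
          intro h1 h2
          rw [hreal, ← mul_assoc, mul_self_one (hs j), one_mul]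
          exact hS.sP w (VV_KK hw) j h1 h2
      · rintro ⟨⟨hp1, hp2⟩, hpN, hpU⟩
        have hpU' : ∀ j, eR ≠ .W j → eL ≠ some (.W j) → 0 < s j * p.1 j :=
          fun j => mem_iInter.1 hpU j
        have h1 : p.2 ∈ gc θ eL '' AA eL r := by
          rw [← hN]
          exact ⟨mem_closedBall_zero_iff.2 hp1, hpN⟩
        obtain ⟨a, ha, hap⟩ := h1
        obtain ⟨y, y1, y2, y3⟩ := unfI eR (fun j => s j * p.1 j) ha.2.1
        obtain ⟨x, x1, x2, x3⟩ := unfR eL (fun j => s j * p.1 j) ha.2.2
        have hfold : fold eR eL ⟨x, y⟩ = a := Complex.ext x2 y2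
        have hnorm : ‖(⟨x, y⟩ : ℂ)‖ < r := by
          rw [← norm_fold eR eL, hfold]
          exact ha.1
        have hwV : (⟨x, y⟩ : ℂ) ∈ VV eR eL r := ⟨hnorm, y1, x1⟩
        have hwK := VV_KK hwV
        refine ⟨⟨x, y⟩, hwV, ?_⟩
        refine Prod.ext ?_ ?_
        · apply PiLp.ext
          intro j
          rw [hreal]
          have key : (G j ⟨x, y⟩).re = s j * p.1 j := by
            have habs : |(G j ⟨x, y⟩).re| = |s j * p.1 j| := by
              rw [hS.abs _ hwK j, hfold, hap, abs_mul, abs_one' (hs j), one_mul, hp2 j]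
            by_cases h1 : eR = .W j
            · have a1 := hS.sR _ hwK j h1
              have b1 := y3 j h1
              refine eq_of_abs_sign habs (fun hv => ?_) fun hv => ?_
              · exact not_lt.1 fun h => absurd (a1.2.1 h) (not_lt.2 (b1.2 hv))
              · exact not_lt.1 fun h => absurd (a1.1.1 h) (not_lt.2 (b1.1 hv))
            · by_cases h2 : eL = some (.W j)
              · have a1 := hS.sL _ hwK j h2
                have b1 := x3 j h2
                refine eq_of_abs_sign habs (fun hv => ?_) fun hv => ?_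
                · exact not_lt.1 fun h => absurd (a1.2.1 h) (not_lt.2 (b1.2 hv))
                · exact not_lt.1 fun h => absurd (a1.1.1 h) (not_lt.2 (b1.1 hv))
              · have a1 := hS.sP _ hwK j h1 h2
                have b1 := hpU' j h1 h2
                exact eq_of_abs_sign habs (fun _ => a1.le) fun hv => absurd b1 (not_lt.2 hv.le)
          rw [key, ← mul_assoc, mul_self_one (hs j), one_mul]
        · rw [hsnd, hfold, hap]
  · refine measure_mono_null ?_ (measure_union_null vol_im vol_re)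
    rintro w ⟨hw, hn⟩
    rw [hsnd] at hn
    rcases (gn _ (fold_KK hr1 (VV_KK hw))).2.1 hn with h | ⟨_, h⟩
    · exact Or.inl (fI_eq_zero h)
    · exact Or.inr (fR_eq_zero h)

end G2
end Pool.Agent.FBM
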