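import Pool.Agent.FBM.G.StmtS

/-!
# FBM block G2, module GCN: the coordinate map on the fundamental domain
-/

set_option autoImplicit false

open Set Metric MeasureTheory Filter Topology

namespace Pool.Agent.FBM
namespace G2

namespace GCN

lemma mem_AA_none {r : ℝ} {w : ℂ} : w ∈ AA none r ↔ ‖w‖ < r ∧ 0 ≤ w.im := by
  simp [AA]

lemma mem_AA_some {e : Edge} {r : ℝ} {w : ℂ} :
    w ∈ AA (some e) r ↔ ‖w‖ < r ∧ 0 ≤ w.im ∧ 0 ≤ w.re := by
  simp [AA]

lemma sq_im (w : ℂ) : (w ^ 2).im = 2 * (w.re * w.im) := by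
  rw [pow_two, Complex.mul_im]
  ring

lemma norm_sq_lt {w : ℂ} {r : ℝ} (hr : 0 < r) : ‖w ^ 2‖ < r ^ 2 ↔ ‖w‖ < r := by
  rw [norm_pow]
  exact pow_lt_pow_iff_left₀ (norm_nonneg w) hr.le two_ne_zero

/-- square roots in the first quadrant -/
lemma exists_root {v : ℂ} (hv : 0 ≤ v.im) : ∃ w : ℂ, w ^ 2 = v ∧ 0 ≤ w.im ∧ 0 ≤ w.re := by
  obtain ⟨s, hs⟩ := IsAlgClosed.exists_pow_nat_eq v (n := 2) two_pos
  have him : 0 ≤ s.re * s.im := by
    have := sq_im s
    rw [hs] at this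
    linarith
  rcases le_or_gt 0 s.re with h1 | h1
  · rcases le_or_gt 0 s.im with h2 | h2
    · exact ⟨s, hs, h2, h1⟩
    · have h3 : s.re = 0 := by
        by_contra h
        have h4 : 0 < s.re := lt_of_le_of_ne h1 (Ne.symm h)
        have := mul_neg_of_pos_of_neg h4 h2
        linarith
      refine ⟨-s, by rw [neg_sq, hs], ?_, ?_⟩
      · rw [Complex.neg_im]; linarith
      · rw [Complex.neg_re, h3]; simp
  · have h2 : s.im ≤ 0 := by
      by_contra h
      push Not at h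
      have := mul_neg_of_neg_of_pos h1 h
      linarith
    refine ⟨-s, by rw [neg_sq, hs], ?_, ?_⟩
    · rw [Complex.neg_im]; linarith
    · rw [Complex.neg_re]; linarith

lemma norm_eq_one_iff (hP : PsiQ) {θ : ℝ} {w : ℂ} (hw : ‖w‖ < 1) (him : 0 ≤ w.im) :
    ‖psi θ w‖ ≤ 1 ∧ (‖psi θ w‖ = 1 ↔ w.im = 0) := by
  have h1 := (hP.nle θ w hw).2 him
  refine ⟨h1, ?_⟩
  have h2 := hP.nlt θ w hw
  constructor
  · intro h
    by_contra h3
    have h4 : 0 < w.im := lt_of_le_of_ne him (Ne.symm h3)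
    have := h2.2 h4
    linarith
  · intro h
    by_contra h3
    have h4 : ‖psi θ w‖ < 1 := lt_of_le_of_ne h1 h3
    have := h2.1 h4
    linarith

end GCN

open GCN in
theorem t_GCN (hPSQ : Stmt_PSQ) : Stmt_GCN := by
  have hP : PsiQ := hPSQ
  intro θ eL r hr hr1
  rcases eL with _ | e
  · -- no corner
    have hgc : gc θ none = psi θ := rfl
    have hsub : AA none 1 ⊆ ball (0 : ℂ) 1 := by
      intro w hw
      rw [mem_ball_zero_iff]
      exact (mem_AA_none.1 hw).1
    rw [hgc]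
    refine ⟨(hP.inj θ).mono hsub, (hP.cont θ).mono hsub,
      ⟨psi θ '' ball 0 r, hP.op θ r hr hr1, ?_⟩, ?_⟩
    · ext u
      constructor
      · rintro ⟨hu, w, hw, rfl⟩
        rw [mem_ball_zero_iff] at hw
        rw [mem_closedBall_zero_iff] at hu
        exact ⟨w, mem_AA_none.2 ⟨hw, (hP.nle θ w (hw.trans_le hr1)).1 hu⟩, rfl⟩
      · rintro ⟨w, hw, rfl⟩
        obtain ⟨h1, h2⟩ := mem_AA_none.1 hw
        refine ⟨?_, w, by rwa [mem_ball_zero_iff], rfl⟩
        rw [mem_closedBall_zero_iff]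
        exact (hP.nle θ w (h1.trans_le hr1)).2 h2
    · intro w hw
      obtain ⟨h1, h2⟩ := mem_AA_none.1 hw
      obtain ⟨h3, h4⟩ := norm_eq_one_iff hP (θ := θ) h1 h2
      exact ⟨h3, by simpa using h4⟩
  · -- corner
    have hgc : gc θ (some e) = fun w => psi θ (w ^ 2) := rfl
    have hsq : ∀ {w : ℂ}, w ∈ AA (some e) 1 → ‖w ^ 2‖ < 1 ∧ 0 ≤ (w ^ 2).im := by
      intro w hw
      obtain ⟨h1, h2, h3⟩ := mem_AA_some.1 hw
      refine ⟨?_, ?_⟩
      · have := (norm_sq_lt (w := w) one_pos).2 h1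
        simpa using this
      · rw [sq_im]
        have := mul_nonneg h3 h2
        linarith
    rw [hgc]
    refine ⟨?_, ?_, ⟨psi θ '' ball 0 (r ^ 2), hP.op θ (r ^ 2) (by positivity) (by
      nlinarith), ?_⟩, ?_⟩
    · intro w hw w' hw' h
      have h1 := hP.inj θ (by rw [mem_ball_zero_iff]; exact (hsq hw).1)
        (by rw [mem_ball_zero_iff]; exact (hsq hw').1) h
      rcases sq_eq_sq_iff_eq_or_eq_neg.1 h1 with h2 | h2
      · exact h2
      · obtain ⟨_, a1, a2⟩ := mem_AA_some.1 hw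
        obtain ⟨_, b1, b2⟩ := mem_AA_some.1 hw'
        rw [h2, Complex.neg_im] at a1
        rw [h2, Complex.neg_re] at a2
        have c1 : w'.re = 0 := by linarith
        have c2 : w'.im = 0 := by linarith
        have c3 : w' = 0 := Complex.ext c1 c2
        rw [h2, c3, neg_zero]
    · refine (hP.cont θ).comp (by fun_prop) ?_
      intro w hw
      rw [mem_ball_zero_iff]
      exact (hsq hw).1
    · ext u
      constructor
      · rintro ⟨hu, v, hv, rfl⟩
        rw [mem_ball_zero_iff] at hv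
        rw [mem_closedBall_zero_iff] at hu
        have hv1 : ‖v‖ < 1 := hv.trans_le (by nlinarith)
        obtain ⟨w, hw, h1, h2⟩ := exists_root ((hP.nle θ v hv1).1 hu)
        refine ⟨w, mem_AA_some.2 ⟨?_, h1, h2⟩, ?_⟩
        · rw [← norm_sq_lt hr, hw]
          exact hv
        · simp only [hw]
      · rintro ⟨w, hw, rfl⟩
        obtain ⟨h1, h2, h3⟩ := mem_AA_some.1 hw
        have hw1 : w ∈ AA (some e) 1 := mem_AA_some.2 ⟨h1.trans_le hr1, h2, h3⟩
        refine ⟨?_, w ^ 2, ?_, rfl⟩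
        · rw [mem_closedBall_zero_iff]
          exact (hP.nle θ _ (hsq hw1).1).2 (hsq hw1).2
        · rw [mem_ball_zero_iff, norm_sq_lt hr]
          exact h1
    · intro w hw
      obtain ⟨h1, h2⟩ := hsq hw
      obtain ⟨h3, h4⟩ := norm_eq_one_iff hP (θ := θ) h1 h2
      refine ⟨h3, ?_⟩
      rw [h4, sq_im]
      constructor
      · intro h
        have h5 : w.re * w.im = 0 := by linarith
        rcases mul_eq_zero.1 h5 with h6 | h6
        · exact Or.inr ⟨by simp, h6⟩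
        · exact Or.inl h6
      · rintro (h | ⟨_, h⟩) <;> rw [h] <;> ring

end G2
end Pool.Agent.FBM
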