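import Pool.Agent.FBM.G.StmtS
import Pool.Agent.FBM.F.Fin
import Pool.Agent.FBM.F.F0
import Pool.Agent.FBM.F.EDG
import Pool.Agent.FBM.C.CASM
import Pool.Agent.FBM.C.CTM
import Pool.Agent.FBM.ATame

/-!
# FBM block G2, module GIN: the inputs from the blocks D, E, F
-/

open Set Metric MeasureTheory Filter Topology

namespace Pool.Agent.FBM
namespace G2

theorem t_GIN : Stmt_GIN := by
  intro hD hEr hEc hFr hFc hFi m p hp X lam T hC hv
  have hT : (Dcfg m p.1 p.2).Tm := (CASM.edge (t_CTM t_A_tame) m p hp).1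
  have hG := _root_.FBM.F.EDG_thm m p.1 p.2 hp
  have hF := _root_.FBM.F.fin_of_top hD hEr hEc _ X lam T hT hC
  refine ⟨hG, hF, _root_.FBM.F.F0_thm _ X lam T hG hF hv, ?_, ?_, ?_⟩
  · intro θ e hR hL
    obtain ⟨ρ, G, h1, h2⟩ := hEr _ X lam T hT hC θ e hR hL
    exact ⟨ρ, G, h1, h2, hFr m p hp X lam T hC hv θ e hR hL ρ G h1⟩
  · intro θ eR eL hR hL hne
    obtain ⟨ρ, G, h1, h2, h3⟩ := hEc _ X lam T hT hC θ eR eL hR hL hne
    exact ⟨ρ, G, h1, h2, h3, hFc m p hp X lam T hC hv θ eR eL hR hL hne ρ G h1⟩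
  · intro z hz
    exact hFi m p hp X lam T hC hv z (by simpa using hz)

end G2
end Pool.Agent.FBM
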