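import Pool.Agent.FBM.G.StmtS

/-!
# MKP: a raw piece of the surface gives a piece
-/

open Set Metric MeasureTheory Filter Topology

namespace Pool.Agent.FBM
namespace G2
namespace MKP

open Classical in
/-- the map into the surface, extended by a constant outside `K` -/
noncomputable def phi {X : Fin 3 → ℝ → ℝ} (R : Raw X) (p0 : SS X) (w : ℂ) : SS X :=
  if h : w ∈ R.K then ⟨R.F w, R.mem w h⟩ else p0

theorem phi_val {X : Fin 3 → ℝ → ℝ} (R : Raw X) (p0 : SS X) {w : ℂ} (h : w ∈ R.K) :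
    (phi R p0 w : Euc 3 × ℂ) = R.F w := by
  rw [phi, dif_pos h]

end MKP

/-- MKP: a raw piece gives a piece. -/
theorem t_MKP : Stmt_MKP := by
  intro X R hne
  obtain ⟨q, hq⟩ := hne
  have hv : ∀ w ∈ R.K, (MKP.phi R ⟨q, hq⟩ w : Euc 3 × ℂ) = R.F w :=
    fun w hw => MKP.phi_val R ⟨q, hq⟩ hw
  refine ⟨{ c := R.c, K := R.K, V := R.V, O := R.O, φ := MKP.phi R ⟨q, hq⟩, G := R.G, Kc := R.Kc,
            Kh := R.Kh, VK := R.VK, Oo := R.Oo, VO := R.VO, cont := ?_, inj := ?_, img := ?_,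
            an := R.an, conf := R.conf, imm := R.imm, eq := ?_, bd := R.bd }, rfl, rfl, hv⟩
  · exact (Topology.IsInducing.subtypeVal.continuousOn_iff).2 (R.cont.congr hv)
  · intro a ha b hb hab
    apply R.inj ha hb
    rw [← hv a ha, ← hv b hb, hab]
  · have h1 : MKP.phi R ⟨q, hq⟩ '' R.V = Subtype.val ⁻¹' R.U := by
      ext p
      constructor
      · rintro ⟨w, hw, rfl⟩
        have h2 : R.F w ∈ R.F '' R.V := ⟨w, hw, rfl⟩
        rw [R.img] at h2
        show (MKP.phi R ⟨q, hq⟩ w : Euc 3 × ℂ) ∈ R.U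
        rw [hv w (R.VK hw)]
        exact h2.2
      · intro hp
        have h2 : (p : Euc 3 × ℂ) ∈ R.F '' R.V := by
          rw [R.img]
          exact ⟨p.2, hp⟩
        obtain ⟨w, hw, h3⟩ := h2
        exact ⟨w, hw, Subtype.ext ((hv w (R.VK hw)).trans h3)⟩
    rw [h1]
    exact R.Uo.preimage continuous_subtype_val
  · intro w hw j
    show (MKP.phi R ⟨q, hq⟩ w : Euc 3 × ℂ).1 j = _
    rw [hv w (R.VK hw)]
    exact R.eq w hw j

end G2
end Pool.Agent.FBM
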