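import Pool.Agent.FBM.G.StmtS

/-!
# FBM block G2: the pieces at interior points of the edges (module REG)
-/

open Set Metric MeasureTheory Filter Topology
open FBM.F (GoodD PosP FIn)

namespace Pool.Agent.FBM
namespace G2
namespace REG

theorem sq_one {s : ℝ} (h : s = 1 ∨ s = -1) : s ^ 2 = 1 := by
  rcases h with rfl | rfl <;> norm_num

theorem ne_zero' {s : ℝ} (h : s = 1 ∨ s = -1) : (s : ℂ) ≠ 0 := by
  rcases h with rfl | rfl <;> norm_num

theorem deriv_mul (s : ℝ) (g : ℂ → ℂ) (w : ℂ) :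
    deriv (fun z => (s : ℂ) * g z) w = (s : ℂ) * deriv g w := by
  rw [deriv_const_mul_field]

theorem build {D : Dat} {X : Fin 3 → ℝ → ℝ} {lam : ℝ → ℝ} {T : Fin 3 → ℝ → ℝ}
    (hSGR : Stmt_SGR) (hCNR : Stmt_CNR) (hFLD : Stmt_FLD) (hFL0 : Stmt_FL0)
    (h : GIn D X lam T) {θ : ℝ} {e : Edge} (hR : EdgeR D θ e) (hL : EdgeL D θ e)
    {p : Euc 3 × ℂ} (hp : p ∈ SSet X) (hp2 : p.2 = Complex.exp (θ * Complex.I)) (c : ℝ)
    (hc1 : ∀ r : ℝ, r < 1 → ∀ w ∈ KK e none r, -c ≤ w.im)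
    (hc2 : ∀ r : ℝ, r < 1 → VV e none r = ball 0 r ∩ {w | -c ≤ w.im})
    (hc3 : ∀ (r : ℝ), r < 1 → ∀ w ∈ VV e none r, w.im = -c → e = Edge.H ∧ c = 0) :
    ∃ R : Raw X, p ∈ R.F '' R.V ∧ volume {w | w ∈ R.V ∧ ‖(R.F w).2‖ = 1} = 0 := by
  obtain ⟨ρ, G, hreg, hpar, himm⟩ := h.regP θ e hR hL
  obtain ⟨r1, hr1, hr1ρ, hsgn⟩ := hSGR D X lam T h θ e ρ G hR hL hreg
  obtain ⟨hconf, r2, hr2, hr2ρ, himm2⟩ := hCNR D X lam T h θ e ρ G hreg himm
  obtain ⟨r, hrdef⟩ : ∃ r : ℝ, r = min r1 r2 := ⟨_, rfl⟩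
  have hr : 0 < r := by rw [hrdef]; exact lt_min hr1 hr2
  have hrr1 : r ≤ r1 := by rw [hrdef]; exact min_le_left _ _
  have hrr2 : r ≤ r2 := by rw [hrdef]; exact min_le_right _ _
  have hrρ : r < ρ := by linarith
  have hr' : r < 1 := hrρ.trans hreg.pos.2
  have hS : Sgn X θ e none r G := hsgn r hr hrr1
  obtain ⟨s, hs, hs0⟩ := hFL0 X θ e none r G hr hr' hS p hp hp2
  obtain ⟨hK, hmem, hcont, hinj, ⟨U, hU, himg⟩, hvol⟩ := hFLD X θ e none r G s hr hr'
    (by simp) hS hs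
  have hnorm : ∀ w ∈ VV e none r, ‖w‖ < r := fun w hw => hw.1
  refine ⟨
    { c := c
      K := KK e none r
      V := VV e none r
      O := ball 0 r
      F := FF θ e none s G
      G := fun j z => (s j : ℂ) * G j z
      U := U
      Kc := hK
      Kh := hc1 r hr'
      VK := fun w hw => ⟨hw.1.le, hw.2.1, hw.2.2⟩
      Oo := isOpen_ball
      VO := hc2 r hr'
      mem := hmem
      cont := hcont
      inj := hinj
      Uo := hU
      img := himg
      an := fun j => ((hreg.an j).mono (ball_subset_ball hrρ.le)).const_mul _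
      conf := ?_
      imm := ?_
      eq := ?_
      bd := ?_ }, ?_, hvol⟩
  · intro w hw
    have h1 := hconf w ((hnorm w hw).trans hrρ)
    rw [← h1]
    refine Finset.sum_congr rfl fun j _ => ?_
    rw [deriv_mul, mul_pow]
    have h2 : ((s j : ℂ)) ^ 2 = 1 := by
      rw [← Complex.ofReal_pow, sq_one (hs j), Complex.ofReal_one]
    rw [h2, one_mul]
  · intro w hw
    obtain ⟨j, hj⟩ := himm2 w ((hnorm w hw).le.trans hrr2)
    refine ⟨j, ?_⟩
    rw [deriv_mul]
    exact mul_ne_zero (ne_zero' (hs j)) hj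
  · intro w _ j
    rw [Complex.re_ofReal_mul]
    rfl
  · intro w hw hwc
    obtain ⟨he, hc⟩ := hc3 r hr' w hw hwc
    have hw0 : w.im = 0 := by rw [hwc, hc, neg_zero]
    have hwx : w = ((w.re : ℝ) : ℂ) := by
      apply Complex.ext
      · rw [Complex.ofReal_re]
      · rw [Complex.ofReal_im, hw0]
    have hx : |w.re| < ρ := (Complex.abs_re_le_norm w).trans_lt ((hnorm w hw).trans hrρ)
    have h1 := hreg.bd' he w.re hx
    obtain ⟨κ, hκ⟩ := hpar he w.re hx
    rw [← hwx] at h1 hκ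
    refine ⟨?_, κ, fun j => ?_⟩
    · rw [← h1]
      refine Finset.sum_congr rfl fun j _ => ?_
      rw [Complex.re_ofReal_mul, mul_pow, sq_one (hs j), one_mul]
    · rw [deriv_mul, Complex.im_ofReal_mul, Complex.re_ofReal_mul, hκ j]
      ring
  · refine ⟨0, ?_, hs0⟩
    refine ⟨by rw [norm_zero]; exact hr, fun _ => le_rfl, fun _ => le_rfl⟩

end REG

open REG in
theorem t_REG (hSGR : Stmt_SGR) (hCNR : Stmt_CNR) (hFLD : Stmt_FLD) (hFL0 : Stmt_FL0) :
    Stmt_REG := by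
  intro D X lam T h θ e hR hL p hp hp2
  cases e with
  | H =>
    refine build hSGR hCNR hFLD hFL0 h hR hL hp hp2 0 ?_ ?_ ?_
    · intro r _ w hw
      rw [neg_zero]
      exact hw.2.1 rfl
    · intro r _
      rw [neg_zero]
      refine Set.Subset.antisymm ?_ ?_
      · intro w hw
        exact ⟨mem_ball_zero_iff.2 hw.1, hw.2.1 rfl⟩
      · intro w hw
        exact ⟨mem_ball_zero_iff.1 hw.1, fun _ => hw.2, fun h => by cases h⟩
    · intro r _ w _ _
      exact ⟨rfl, rfl⟩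
  | W i =>
    have key : ∀ (r : ℝ) (w : ℂ), r < 1 → ‖w‖ ≤ r → -2 < w.im := by
      intro r w hr hw
      have h1 := Complex.abs_im_le_norm w
      rw [abs_le] at h1
      linarith [h1.1]
    refine build hSGR hCNR hFLD hFL0 h hR hL hp hp2 2 ?_ ?_ ?_
    · intro r hr w hw
      exact (key r w hr hw.1).le
    · intro r hr
      refine Set.Subset.antisymm ?_ ?_
      · intro w hw
        exact ⟨mem_ball_zero_iff.2 hw.1, (key r w hr hw.1.le).le⟩
      · intro w hw
        exact ⟨mem_ball_zero_iff.1 hw.1, fun h => (by cases h), fun h => (by cases h)⟩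
    · intro r hr w hw hw2
      exfalso
      have := key r w hr hw.1.le
      linarith

end G2
end Pool.Agent.FBM
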