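import Pool.Agent.FBM.G.StmtS

/-!
# FBM block G2, module SGR: the sign pattern at interior points of the edges
-/

open Set Metric MeasureTheory Filter Topology
open FBM.F (GoodD PosP FIn)

namespace Pool.Agent.FBM
namespace G2

namespace SGR

theorem psi_zero (hPSQ : Stmt_PSQ) (θ : ℝ) : psi θ 0 = Complex.exp (θ * Complex.I) := by
  have h := hPSQ.re θ 0
  rw [Real.arctan_zero, mul_zero, add_zero] at h
  rw [← h, Complex.ofReal_zero]

/-- positivity near the centre of the components which are positive at the centre -/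
theorem near {ρ : ℝ} (hρ : 0 < ρ) {G : Fin 3 → ℂ → ℂ}
    (hG : ∀ j, DifferentiableOn ℂ (G j) (ball 0 ρ)) (e : Edge)
    (h0 : ∀ j, e ≠ .W j → 0 < (G j 0).re) :
    ∃ r0, 0 < r0 ∧ r0 < ρ ∧ ∀ w : ℂ, ‖w‖ ≤ r0 → ∀ j, e ≠ .W j → 0 < (G j w).re := by
  have hmem : (0 : ℂ) ∈ ball (0 : ℂ) ρ := mem_ball_self hρ
  have h1 : ∀ j, ∀ᶠ w in 𝓝 (0 : ℂ), e ≠ .W j → 0 < (G j w).re := by
    intro j
    by_cases hj : e = .W j
    · exact Eventually.of_forall fun w h => absurd hj h
    · have hc : ContinuousAt (G j) 0 := ((hG j).differentiableAt (isOpen_ball.mem_nhds hmem)).continuousAt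
      have hc2 : ContinuousAt (fun w => (G j w).re) 0 := Complex.continuous_re.continuousAt.comp hc
      filter_upwards [hc2.eventually (lt_mem_nhds (h0 j hj))] with w hw _
      exact hw
  have h2 : ∀ᶠ w in 𝓝 (0 : ℂ), ∀ j, e ≠ .W j → 0 < (G j w).re := eventually_all.2 h1
  obtain ⟨δ, hδ, hδ2⟩ := Metric.eventually_nhds_iff.1 h2
  refine ⟨min (δ / 2) (ρ / 2), lt_min (by linarith) (by linarith),
    lt_of_le_of_lt (min_le_right _ _) (by linarith), ?_⟩
  intro w hw j hj
  apply hδ2 _ j hj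
  rw [dist_zero_right]
  exact lt_of_le_of_lt (hw.trans (min_le_left _ _)) (by linarith)

theorem conj_im_pos {w : ℂ} (h : w.im < 0) : 0 < ((starRingEnd ℂ) w).im := by
  rw [Complex.conj_im]; linarith

theorem fold_none_nonneg (e : Edge) {w : ℂ} (h : 0 ≤ w.im) : fold e none w = w := by
  cases e with
  | W i =>
    apply Complex.ext
    · rfl
    · change |w.im| = w.im
      exact abs_of_nonneg h
  | H => rfl

theorem fold_none_neg (i : Fin 3) {w : ℂ} (h : w.im < 0) :
    fold (.W i) none w = (starRingEnd ℂ) w := by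
  apply Complex.ext
  · rw [Complex.conj_re]; rfl
  · rw [Complex.conj_im]
    change |w.im| = -w.im
    exact abs_of_neg h

end SGR

open SGR in
theorem t_SGR (hPSQ : Stmt_PSQ) (hEDP : Stmt_EDP) : Stmt_SGR := by
  intro D X lam T hG θ e ρ G hR hL hreg
  have hedp := (hEDP D X hG.good hG.pos θ e e hR hL).1
  have hρ : 0 < ρ := hreg.pos.1
  have hρ1 : ρ < 1 := hreg.pos.2
  -- values in the upper half
  have hval : ∀ w : ℂ, ‖w‖ < ρ → 0 ≤ w.im → ∀ j, (G j w).re = pt X (psi θ w) j := by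
    intro w hw hi j
    rw [hreg.eq j w hw hi]; rfl
  have hpos : ∀ w : ℂ, ‖w‖ < ρ → 0 < w.im → ∀ j, 0 < (G j w).re := by
    intro w hw hi j
    rw [hval w hw hi.le j]
    apply hG.pos.pos
    rw [mem_ball_zero_iff]
    exact (hPSQ.nlt θ w (hw.trans hρ1)).2 hi
  have h0 : ∀ j, e ≠ .W j → 0 < (G j 0).re := by
    intro j hj
    rw [hval 0 (by rw [norm_zero]; exact hρ) (by rw [Complex.zero_im]) j, psi_zero hPSQ]
    exact hedp j hj hj
  obtain ⟨r0, hr0, hr0ρ, hnear⟩ := near hρ hreg.an e h0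
  refine ⟨r0, hr0, hr0ρ, ?_⟩
  intro r hr hrr0
  have hlt : ∀ w ∈ KK e none r, ‖w‖ < ρ := fun w hw => lt_of_le_of_lt (hw.1.trans hrr0) hr0ρ
  -- the wall component
  have hwall : ∀ i, e = .W i → ∀ w : ℂ, ‖w‖ < ρ →
      ∀ j, (G j ((starRingEnd ℂ) w)).re = (if j = i then -1 else 1) * (G j w).re := by
    intro i hi w hw j
    have hb := hreg.bd
    rw [hi] at hb
    exact hb j w hw
  have hzero : ∀ i, e = .W i → ∀ w : ℂ, ‖w‖ < ρ → w.im = 0 → (G i w).re = 0 := by
    intro i hi w hw h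
    have h1 := hwall i hi w hw i
    rw [if_pos rfl, Complex.conj_eq_iff_im.2 h] at h1
    linarith
  have hneg : ∀ i, e = .W i → ∀ w : ℂ, ‖w‖ < ρ → w.im < 0 → (G i w).re < 0 := by
    intro i hi w hw h
    have h1 := hwall i hi w hw i
    rw [if_pos rfl] at h1
    have h2 := hpos ((starRingEnd ℂ) w) (by rw [RCLike.norm_conj]; exact hw) (conj_im_pos h) i
    linarith
  have hnn : ∀ w : ℂ, ‖w‖ ≤ r → ∀ j, 0 ≤ w.im → 0 ≤ (G j w).re := by
    intro w hw j hi
    have hw' : ‖w‖ < ρ := lt_of_le_of_lt (hw.trans hrr0) hr0ρ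
    by_cases hj : e = .W j
    · rcases hi.lt_or_eq with h | h
      · exact (hpos w hw' h j).le
      · exact (hzero j hj w hw' h.symm).ge
    · exact (hnear w (hw.trans hrr0) j hj).le
  refine ⟨?_, ?_, ?_, ?_, ?_⟩
  · intro j
    exact (hreg.an j).continuousOn.mono (closedBall_subset_ball (lt_of_le_of_lt hrr0 hr0ρ))
  · intro w hw j
    change |(G j w).re| = pt X (psi θ (fold e none w)) j
    have hw1 := hlt w hw
    rcases lt_or_ge w.im 0 with hi | hi
    · cases he : e with
      | H => exact absurd (hw.2.1 he) (not_le.2 hi)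
      | W i =>
        rw [fold_none_neg i hi]
        have hcn : ‖(starRingEnd ℂ) w‖ < ρ := by rw [RCLike.norm_conj]; exact hw1
        have hci := conj_im_pos hi
        rw [← hval _ hcn hci.le j, hwall i he w hw1 j]
        have hp := hpos _ hcn hci j
        rw [hwall i he w hw1 j] at hp
        by_cases hji : j = i
        · rw [if_pos hji] at hp ⊢
          rw [abs_of_neg (by linarith)]; ring
        · rw [if_neg hji] at hp ⊢
          rw [abs_of_pos (by linarith)]; ring
    · rw [fold_none_nonneg e hi, ← hval w hw1 hi j]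
      exact abs_of_nonneg (hnn w hw.1 j hi)
  · intro w hw j hj
    have hw1 := hlt w hw
    rcases lt_trichotomy w.im 0 with h | h | h
    · have := hneg j hj w hw1 h
      exact ⟨⟨fun h' => by linarith, fun h' => by linarith⟩, ⟨fun _ => h, fun _ => this⟩⟩
    · have := hzero j hj w hw1 h
      exact ⟨⟨fun h' => by linarith, fun h' => by linarith⟩,
        ⟨fun h' => by linarith, fun h' => by linarith⟩⟩
    · have := hpos w hw1 h j
      exact ⟨⟨fun _ => h, fun _ => this⟩, ⟨fun h' => by linarith, fun h' => by linarith⟩⟩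
  · intro w _ j hj
    exact absurd hj (by simp)
  · intro w hw j hj _
    exact hnear w (hw.1.trans hrr0) j hj

end G2
end Pool.Agent.FBM
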