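import Pool.Agent.FBM.G.StmtS
import Pool.Agent.FBM.E.PSI

/-!
# FBM block G2, module PSQ: the properties of the coordinate `psi`

Architect helper8, worked out by helper82.
-/

open Set Metric MeasureTheory Filter Topology

namespace Pool.Agent.FBM
namespace G2

namespace PSQ

open Complex

lemma c_mul (θ : ℝ) : exp (-(θ * I)) * exp (θ * I) = 1 := by
  rw [← exp_add, neg_add_cancel, exp_zero]

/-- `psi θ w` in the rotated coordinate `v = u e^{-iθ}` -/
lemma rot (θ : ℝ) (w : ℂ) : exp (-(θ * I)) * psi θ w = (1 + I * w) / (1 - I * w) := by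
  rw [psi, ← mul_assoc, c_mul, one_mul]

lemma norm_rel {v w : ℂ} (hw : (1 : ℂ) - I * w ≠ 0) (hv : v = (1 + I * w) / (1 - I * w)) :
    ‖v - 1‖ = ‖w‖ * ‖v + 1‖ ∧ 0 < ‖v + 1‖ := by
  have e1 : v + 1 = 2 / (1 - I * w) := by
    rw [hv]
    field_simp
    ring
  have e2 : v - 1 = I * w * (2 / (1 - I * w)) := by
    rw [hv]
    field_simp
    ring
  rw [e2, ← e1, norm_mul, norm_mul, norm_I, one_mul]
  refine ⟨rfl, ?_⟩
  rw [e1]
  exact norm_pos_iff.2 (div_ne_zero two_ne_zero hw)

lemma img (θ r : ℝ) (hr1 : r ≤ 1) :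
    psi θ '' ball 0 r = {u : ℂ | ‖exp (-(θ * I)) * u - 1‖ < r * ‖exp (-(θ * I)) * u + 1‖} := by
  ext u
  constructor
  · rintro ⟨w, hw, rfl⟩
    rw [mem_ball_zero_iff] at hw
    obtain ⟨h1, h2⟩ := norm_rel (PSI.ne_ball (hw.trans_le hr1)) (rot θ w)
    change ‖exp (-(θ * I)) * psi θ w - 1‖ < r * ‖exp (-(θ * I)) * psi θ w + 1‖
    rw [h1]
    exact mul_lt_mul_of_pos_right hw h2
  · intro h
    change ‖exp (-(θ * I)) * u - 1‖ < r * ‖exp (-(θ * I)) * u + 1‖ at h
    obtain ⟨v, hv⟩ : ∃ v : ℂ, v = exp (-(θ * I)) * u := ⟨_, rfl⟩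
    rw [← hv] at h
    have h0 : 0 < ‖v + 1‖ := by
      have h1 := (norm_nonneg (v - 1)).trans_lt h
      by_contra hc
      have h2 : ‖v + 1‖ = 0 := le_antisymm (not_lt.1 hc) (norm_nonneg _)
      rw [h2, mul_zero] at h1
      exact lt_irrefl _ h1
    have h1 : v + 1 ≠ 0 := norm_pos_iff.1 h0
    have hu : u = exp (θ * I) * v := by
      rw [hv, ← mul_assoc, mul_comm (exp (θ * I)), c_mul, one_mul]
    refine ⟨-I * ((v - 1) / (v + 1)), ?_, ?_⟩
    · rw [mem_ball_zero_iff, norm_mul, norm_neg, norm_I, one_mul, norm_div, div_lt_iff₀ h0]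
      exact h
    · have h2 : I * (-I * ((v - 1) / (v + 1))) = (v - 1) / (v + 1) := by
        rw [← mul_assoc, mul_neg, I_mul_I, neg_neg, one_mul]
      rw [psi, h2, hu]
      congr 1
      have h3 : 1 + (v - 1) / (v + 1) = 2 * v / (v + 1) := by
        field_simp
        ring
      have h4 : 1 - (v - 1) / (v + 1) = 2 / (v + 1) := by
        field_simp
        ring
      rw [h3, h4]
      field_simp

end PSQ

open PSQ

theorem t_PSQ : Stmt_PSQ where
  inj θ w hw w' hw' h := by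
    rw [mem_ball_zero_iff] at hw hw'
    have h1 : (1 + Complex.I * w) / (1 - Complex.I * w) =
        (1 + Complex.I * w') / (1 - Complex.I * w') := by
      rw [← rot θ w, ← rot θ w', h]
    rw [div_eq_div_iff (PSI.ne_ball hw) (PSI.ne_ball hw')] at h1
    have h2 : (2 * Complex.I) * w = (2 * Complex.I) * w' := by linear_combination h1
    exact mul_left_cancel₀ (mul_ne_zero two_ne_zero Complex.I_ne_zero) h2
  cont θ w hw :=
    (PSI.hasDerivAt_psi θ (mem_ball_zero_iff.1 hw)).continuousAt.continuousWithinAt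
  op θ r _ hr1 := by
    rw [img θ r hr1]
    exact isOpen_lt (by fun_prop) (by fun_prop)
  nle θ w hw := by
    rw [PSI.norm_psi, div_le_one (norm_pos_iff.2 (PSI.ne_ball hw)),
      ← sq_le_sq₀ (norm_nonneg _) (norm_nonneg _)]
    have h := PSI.nsq w
    rw [Complex.normSq_eq_norm_sq, Complex.normSq_eq_norm_sq] at h
    constructor <;> intro h1 <;> linarith
  nlt θ w hw := by
    rw [PSI.norm_psi, div_lt_one (norm_pos_iff.2 (PSI.ne_ball hw)),
      ← sq_lt_sq₀ (norm_nonneg _) (norm_nonneg _)]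
    have h := PSI.nsq w
    rw [Complex.normSq_eq_norm_sq, Complex.normSq_eq_norm_sq] at h
    constructor <;> intro h1 <;> linarith
  re θ x := by
    rw [psi, ← PSI.exp_arctan, ← Complex.exp_add]
    congr 1
    push_cast
    ring

end G2
end Pool.Agent.FBM
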