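import Pool.Agent.FBM.G.StmtS

/-!
# FBM, block G2, module SGC: the sign pattern at corners and junctions
-/

open Set Metric MeasureTheory Filter Topology
open FBM.F (GoodD PosP FIn)

namespace Pool.Agent.FBM
namespace G2

namespace SGC

/-- the point of the closed first quadrant -/
def qd (w : ℂ) : ℂ := ⟨|w.re|, |w.im|⟩

theorem norm_qd (w : ℂ) : ‖qd w‖ = ‖w‖ := by
  rw [Complex.norm_def, Complex.norm_def, Complex.normSq_apply, Complex.normSq_apply]
  simp only [qd]
  rw [abs_mul_abs_self, abs_mul_abs_self]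

theorem norm_mirror (w : ℂ) : ‖-(starRingEnd ℂ) w‖ = ‖w‖ := by
  rw [norm_neg, Complex.norm_conj]

theorem arctan_lt {t : ℝ} (ht : 0 < t) : Real.arctan t < t := by
  have h1 : 0 < Real.arctan t := by
    rw [← Real.arctan_zero]
    exact Real.arctan_strictMono ht
  have h2 := Real.lt_tan h1 (Real.arctan_lt_pi_div_two t)
  rwa [Real.tan_arctan] at h2

/-- the real part is nonnegative on the closed disc -/
theorem pt_nonneg {D : Dat} {X : Fin 3 → ℝ → ℝ} (h : PosP D X) {z : ℂ} (hz : ‖z‖ ≤ 1)
    (j : Fin 3) : 0 ≤ pt X z j := by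
  rcases hz.lt_or_eq with h1 | h1
  · exact (h.pos z (by simpa using h1) j).le
  · have e : z = Complex.exp ((Complex.arg z : ℝ) * Complex.I) := by
      have := Complex.norm_mul_exp_arg_mul_I z
      rw [h1] at this
      simpa using this.symm
    rw [e]
    by_cases hc : Complex.arg z ∈ closure (D.Z j)
    · exact (h.bzero _ j hc).ge
    · exact (h.bpos _ j hc).le

open scoped Classical in
/-- sign of the parity factors -/
theorem parity {X : Fin 3 → ℝ → ℝ} {θ : ℝ} {eR eL : Edge} {ρ : ℝ} {G : Fin 3 → ℂ → ℂ}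
    (hL : LocCor X θ eR eL ρ G) {w : ℂ} (hw : ‖w‖ < ρ) (h1 : eR = .H → 0 ≤ w.im)
    (h2 : eL = .H → 0 ≤ w.re) (j : Fin 3) :
    (G j (qd w)).re = (if w.re < 0 ∧ eL = .W j then -1 else 1) *
      ((if w.im < 0 ∧ eR = .W j then -1 else 1) * (G j w).re) := by
  -- first the imaginary part
  have s1 : (G j ⟨w.re, |w.im|⟩).re = (if w.im < 0 ∧ eR = .W j then -1 else 1) * (G j w).re := by
    by_cases hi : w.im < 0
    · cases eR with
      | H => exact absurd (h1 rfl) (not_le.2 hi)
      | W i =>
        have h3 := hL.bdR j w hw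
        have e : (starRingEnd ℂ) w = ⟨w.re, |w.im|⟩ := by
          apply Complex.ext
          · simp
          · simp [abs_of_neg hi]
        rw [e] at h3
        rw [h3]
        have e2 : (w.im < 0 ∧ Edge.W i = Edge.W j) ↔ j = i := by
          simp only [hi, Edge.W.injEq, true_and]
          exact eq_comm
        simp only [e2]
    · have e : (⟨w.re, |w.im|⟩ : ℂ) = w := by
        apply Complex.ext
        · rfl
        · simp only
          exact abs_of_nonneg (not_lt.1 hi)
      rw [e, if_neg (fun h => hi h.1), one_mul]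
  have hn : ‖(⟨w.re, |w.im|⟩ : ℂ)‖ < ρ := by
    have : ‖(⟨w.re, |w.im|⟩ : ℂ)‖ = ‖w‖ := by
      rw [Complex.norm_def, Complex.norm_def, Complex.normSq_apply, Complex.normSq_apply]
      simp only
      rw [abs_mul_abs_self]
    rwa [this]
  rw [← s1]
  by_cases hr : w.re < 0
  · cases eL with
    | H => exact absurd (h2 rfl) (not_le.2 hr)
    | W i =>
      have h3 := hL.bdL j _ hn
      have e : -(starRingEnd ℂ) (⟨w.re, |w.im|⟩ : ℂ) = qd w := by
        apply Complex.ext
        · simp [qd, abs_of_neg hr]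
        · simp [qd]
      rw [e] at h3
      rw [h3]
      have e2 : (w.re < 0 ∧ Edge.W i = Edge.W j) ↔ j = i := by
        simp only [hr, Edge.W.injEq, true_and]
        exact eq_comm
      simp only [e2]
  · have e : (⟨w.re, |w.im|⟩ : ℂ) = qd w := by
      apply Complex.ext
      · simp only [qd]
        exact (abs_of_nonneg (not_lt.1 hr)).symm
      · rfl
    rw [e, if_neg (fun h => hr h.1), one_mul]

/-- the zero on the real axis -/
theorem zeroR {X : Fin 3 → ℝ → ℝ} {θ : ℝ} {eL : Edge} {ρ : ℝ} {G : Fin 3 → ℂ → ℂ} {j : Fin 3}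
    (hL : LocCor X θ (.W j) eL ρ G) {w : ℂ} (hw : ‖w‖ < ρ) (h : w.im = 0) : (G j w).re = 0 := by
  have h3 := hL.bdR j w hw
  have e : (starRingEnd ℂ) w = w := Complex.conj_eq_iff_im.2 h
  rw [e, if_pos rfl] at h3
  linarith

/-- the zero on the imaginary axis -/
theorem zeroL {X : Fin 3 → ℝ → ℝ} {θ : ℝ} {eR : Edge} {ρ : ℝ} {G : Fin 3 → ℂ → ℂ} {j : Fin 3}
    (hL : LocCor X θ eR (.W j) ρ G) {w : ℂ} (hw : ‖w‖ < ρ) (h : w.re = 0) : (G j w).re = 0 := by
  have h3 := hL.bdL j w hw
  have e : -(starRingEnd ℂ) w = w := by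
    apply Complex.ext
    · simp [h]
    · simp
  rw [e, if_pos rfl] at h3
  linarith

/-- positivity in the closed first quadrant -/
theorem posQ (hPSQ : Stmt_PSQ) {D : Dat} {X : Fin 3 → ℝ → ℝ} (hp : PosP D X) {θ : ℝ}
    {eR eL : Edge} {ρ : ℝ} {G : Fin 3 → ℂ → ℂ} (hL : LocCor X θ eR eL ρ G) {δ : ℝ}
    (h0 : ∀ j, eR ≠ .W j → eL ≠ .W j → 0 < pt X (Complex.exp (θ * Complex.I)) j)
    (h1 : ∀ t : ℝ, θ < t → t < θ + δ → ∀ j, eR ≠ .W j →
        0 < pt X (Complex.exp (t * Complex.I)) j)
    (h2 : ∀ t : ℝ, θ - δ < t → t < θ → ∀ j, eL ≠ .W j →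
        0 < pt X (Complex.exp (t * Complex.I)) j)
    {w : ℂ} (hw : ‖w‖ < ρ) (hδ : 2 * ‖w‖ < δ) (hr : 0 ≤ w.re) (hi : 0 ≤ w.im) (j : Fin 3)
    (a1 : eR = .W j → 0 < w.im) (a2 : eL = .W j → 0 < w.re) : 0 < (G j w).re := by
  have hP : PsiQ := hPSQ
  have hρ := hL.pos
  have hw1 : ‖w‖ < 1 := hw.trans hρ.2
  have e := hL.eq j w hw hr hi
  have e1 : (G j w).re = pt X (psi θ (w ^ 2)) j := by rw [e]; rfl
  rw [e1]
  have hw2 : ‖w ^ 2‖ < 1 := by
    rw [norm_pow]
    exact pow_lt_one₀ (norm_nonneg _) hw1 two_ne_zero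
  have him : (w ^ 2).im = 2 * (w.re * w.im) := by
    rw [pow_two, Complex.mul_im]
    ring
  rcases hi.lt_or_eq with hi' | hi'
  · rcases hr.lt_or_eq with hr' | hr'
    · -- open quadrant
      have : ‖psi θ (w ^ 2)‖ < 1 := (hP.nlt θ _ hw2).2 (by rw [him]; positivity)
      exact hp.pos _ (by simpa using this) j
    · -- positive imaginary axis
      have e2 : w ^ 2 = ((-(w.im ^ 2) : ℝ) : ℂ) := by
        apply Complex.ext
        · rw [pow_two, Complex.mul_re, ← hr', Complex.ofReal_re]
          ring
        · rw [him, ← hr', Complex.ofReal_im]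
          ring
      have hy : |w.im| ≤ ‖w‖ := Complex.abs_im_le_norm w
      rw [abs_of_pos hi'] at hy
      have hy2 : w.im ^ 2 ≤ ‖w‖ := by nlinarith
      have hlt := arctan_lt (pow_pos hi' 2)
      have hpos : 0 < Real.arctan (w.im ^ 2) := by
        rw [← Real.arctan_zero]
        exact Real.arctan_strictMono (pow_pos hi' 2)
      rw [e2, hP.re]
      apply h2
      · rw [Real.arctan_neg]
        linarith
      · rw [Real.arctan_neg]
        linarith
      · intro h
        have := a2 h
        rw [← hr'] at this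
        exact lt_irrefl _ this
  · rcases hr.lt_or_eq with hr' | hr'
    · -- positive real axis
      have e2 : w ^ 2 = ((w.re ^ 2 : ℝ) : ℂ) := by
        apply Complex.ext
        · rw [pow_two, Complex.mul_re, ← hi', Complex.ofReal_re]
          ring
        · rw [him, ← hi', Complex.ofReal_im]
          ring
      have hy : |w.re| ≤ ‖w‖ := Complex.abs_re_le_norm w
      rw [abs_of_pos hr'] at hy
      have hy2 : w.re ^ 2 ≤ ‖w‖ := by nlinarith
      have hlt := arctan_lt (pow_pos hr' 2)
      have hpos : 0 < Real.arctan (w.re ^ 2) := by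
        rw [← Real.arctan_zero]
        exact Real.arctan_strictMono (pow_pos hr' 2)
      rw [e2, hP.re]
      apply h1
      · linarith
      · linarith
      · intro h
        have := a1 h
        rw [← hi'] at this
        exact lt_irrefl _ this
    · -- the origin
      have e2 : w = 0 := Complex.ext hr'.symm hi'.symm
      have e3 : psi θ (w ^ 2) = Complex.exp (θ * Complex.I) := by
        rw [e2]
        simp [psi]
      rw [e3]
      apply h0
      · intro h
        have := a1 h
        rw [← hi'] at this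
        exact lt_irrefl _ this
      · intro h
        have := a2 h
        rw [← hr'] at this
        exact lt_irrefl _ this

end SGC

open SGC in
theorem t_SGC (hPSQ : Stmt_PSQ) (hEDP : Stmt_EDP) : Stmt_SGC := by
  intro D X lam T hG θ eR eL ρ G hR hLe hne hL
  have hP : PsiQ := hPSQ
  obtain ⟨h0, δ, hδ, h1, h2⟩ := hEDP D X hG.good hG.pos θ eR eL hR hLe
  have hρ := hL.pos
  refine ⟨min (ρ / 2) (δ / 4), lt_min (by linarith) (by linarith),
    lt_of_le_of_lt (min_le_left _ _) (by linarith), ?_⟩
  intro r hr hr0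
  have hrρ : r < ρ := lt_of_le_of_lt (hr0.trans (min_le_left _ _)) (by linarith)
  have hrδ : 2 * r < δ := by
    have := hr0.trans (min_le_right _ _)
    linarith
  -- facts on points of `KK`
  have key : ∀ w ∈ KK eR (some eL) r, ‖w‖ < ρ ∧ 2 * ‖w‖ < δ ∧ (eR = .H → 0 ≤ w.im) ∧
      (eL = .H → 0 ≤ w.re) := by
    intro w hw
    obtain ⟨a, b, c⟩ := hw
    exact ⟨lt_of_le_of_lt a hrρ, by linarith, b, fun h => c (by rw [h])⟩
  have hq : ∀ w ∈ KK eR (some eL) r, ∀ j, (eR = .W j → w.im ≠ 0) → (eL = .W j → w.re ≠ 0) →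
      0 < (G j (qd w)).re := by
    intro w hw j b1 b2
    obtain ⟨k1, k2, k3, k4⟩ := key w hw
    refine posQ hPSQ hG.pos hL h0 h1 h2 (by rw [norm_qd]; exact k1) (by rw [norm_qd]; exact k2)
      (abs_nonneg _) (abs_nonneg _) j (fun h => abs_pos.2 (b1 h)) (fun h => abs_pos.2 (b2 h))
  refine ⟨?_, ?_, ?_, ?_, ?_⟩
  · intro j
    exact (hL.an j).continuousOn.mono (closedBall_subset_ball hrρ)
  · -- absolute values
    intro w hw j
    obtain ⟨k1, k2, k3, k4⟩ := key w hw
    have e1 : fold eR (some eL) w = qd w := by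
      have aux : ∀ (e : Edge) (t : ℝ), (e = .H → 0 ≤ t) → fI e t = |t| := by
        intro e t h
        cases e with
        | W i => rfl
        | H => exact (abs_of_nonneg (h rfl)).symm
      apply Complex.ext
      · exact aux eL _ k4
      · exact aux eR _ k3
    have hq1 : ‖qd w‖ < ρ := by rw [norm_qd]; exact k1
    have e2 : pt X (gc θ (some eL) (fold eR (some eL) w)) j = (G j (qd w)).re := by
      rw [e1, hL.eq j (qd w) hq1 (abs_nonneg _) (abs_nonneg _)]
      rfl
    have hnn : 0 ≤ (G j (qd w)).re := by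
      rw [← e2, e1]
      apply pt_nonneg hG.pos
      have hw2 : ‖(qd w) ^ 2‖ < 1 := by
        rw [norm_pow]
        exact pow_lt_one₀ (norm_nonneg _) (hq1.trans hρ.2) two_ne_zero
      refine (hP.nle θ _ hw2).2 ?_
      rw [pow_two, Complex.mul_im]
      have := abs_nonneg w.re
      have := abs_nonneg w.im
      simp only [qd]
      positivity
    have h3 := parity hL k1 k3 k4 j
    rw [e2, ← abs_of_nonneg hnn, h3, abs_mul, abs_mul]
    have u : ∀ (p : Prop) [Decidable p], |(if p then (-1 : ℝ) else 1)| = 1 := by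
      intro p _
      split_ifs <;> simp
    rw [u, u, one_mul, one_mul]
  · -- the wall on the right
    intro w hw j hj
    obtain ⟨k1, k2, k3, k4⟩ := key w hw
    subst hj
    have hLj : eL ≠ .W j := fun h => hne h.symm
    have h3 := parity hL k1 k3 k4 j
    rw [if_neg (fun h => hLj h.2), one_mul] at h3
    rcases lt_trichotomy w.im 0 with hi | hi | hi
    · have hpos := hq w hw j (fun _ => hi.ne) (fun h => absurd h hLj)
      rw [if_pos ⟨hi, rfl⟩] at h3
      constructor
      · constructor
        · intro h; linarith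
        · intro h; linarith
      · constructor
        · intro _; exact hi
        · intro _; linarith
    · have hz := zeroR hL k1 hi
      rw [hz, hi]
      simp
    · have hpos := hq w hw j (fun _ => hi.ne') (fun h => absurd h hLj)
      rw [if_neg (fun h => absurd h.1 (not_lt.2 hi.le)), one_mul] at h3
      constructor
      · constructor
        · intro _; exact hi
        · intro _; linarith
      · constructor
        · intro h; linarith
        · intro h; linarith
  · -- the wall on the left
    intro w hw j hj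
    obtain ⟨k1, k2, k3, k4⟩ := key w hw
    have hj' : eL = .W j := Option.some.inj hj
    subst hj'
    have h3 := parity hL k1 k3 k4 j
    rw [if_neg (fun h : w.im < 0 ∧ eR = .W j => hne h.2), one_mul] at h3
    rcases lt_trichotomy w.re 0 with hi | hi | hi
    · have hpos := hq w hw j (fun h => absurd h hne) (fun _ => hi.ne)
      rw [if_pos ⟨hi, rfl⟩] at h3
      constructor
      · constructor
        · intro h; linarith
        · intro h; linarith
      · constructor
        · intro _; exact hi
        · intro _; linarith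
    · have hz := zeroL hL k1 hi
      rw [hz, hi]
      simp
    · have hpos := hq w hw j (fun h => absurd h hne) (fun _ => hi.ne')
      rw [if_neg (fun h => absurd h.1 (not_lt.2 hi.le)), one_mul] at h3
      constructor
      · constructor
        · intro _; exact hi
        · intro _; linarith
      · constructor
        · intro h; linarith
        · intro h; linarith
  · -- the other components
    intro w hw j hj1 hj2
    obtain ⟨k1, k2, k3, k4⟩ := key w hw
    have hj2' : eL ≠ .W j := fun h => hj2 (by rw [h])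
    have h3 := parity hL k1 k3 k4 j
    rw [if_neg (fun h => hj2' h.2), if_neg (fun h => hj1 h.2), one_mul, one_mul] at h3
    rw [← h3]
    exact hq w hw j (fun h => absurd h hj1) (fun h => absurd h hj2')

end G2
end Pool.Agent.FBM
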