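import Pool.Agent.FBM.G.StmtS

/-!
# SRF: the surface
-/

open Set Metric MeasureTheory Filter Topology

namespace Pool.Agent.FBM
namespace G2

namespace SRF

theorem sg_cases (b : Bool) : sg b = 1 ∨ sg b = -1 := by
  cases b
  · right; simp [sg]
  · left; simp [sg]

theorem sg_inj {a b : Bool} (h : sg a = sg b) : a = b := by
  cases a <;> cases b <;> simp [sg] at h ⊢ <;> norm_num at h

theorem mk3_apply (v : Fin 3 → ℝ) (i : Fin 3) : mk3 v i = v i := rfl

theorem mk3_eta (y : Euc 3) : (mk3 fun j => y j) = y := rfl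

/-- the sign of a real number -/
theorem sign_mul {y t : ℝ} (h : |y| = t) : sg (decide (0 < y)) * t = y := by
  by_cases hy : 0 < y
  · rw [decide_eq_true hy, ← h, abs_of_pos hy]
    simp [sg]
  · rw [decide_eq_false hy, ← h, abs_of_nonpos (not_lt.1 hy)]
    simp [sg]

end SRF

open SRF

theorem t_SRF (hMKP : Stmt_MKP) (hCPT : Stmt_CPT) (hBIG : Stmt_BIG) (hREG : Stmt_REG)
    (hCO1 : Stmt_CO1) (hCO2 : Stmt_CO2) : Stmt_SRF := by
  intro D X lam T hG
  obtain ⟨hc, hne, hb⟩ := hCPT D X hG.pos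
  have hB : ∀ σ : Fin 3 → Bool, ∃ P : PData (SS X) (sx X), P.V = ball 0 1 ∧
      (P.G = fun j z => (sg (σ j) : ℂ) * hz (X j) z) ∧
      ∀ w ∈ closedBall (0 : ℂ) 1,
        (P.φ w : Euc 3 × ℂ) = (mk3 fun j => sg (σ j) * pt X w j, w) := by
    intro σ
    obtain ⟨R, hV, hK, hF, hRG⟩ := hBIG D X lam T hG (fun j => sg (σ j)) fun j => sg_cases _
    obtain ⟨P, h1, h2, h3⟩ := hMKP X R hne
    refine ⟨P, by rw [h1, hV], by rw [h2, hRG], ?_⟩
    intro w hw
    rw [h3 w (by rw [hK]; exact hw), hF w]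
  choose B hV hGG hφ using hB
  -- a point over the open disc lies in a big piece
  have hbig : ∀ s : SS X, ‖s.1.2‖ < 1 → ∃ σ, s ∈ (B σ).φ '' ball 0 1 := by
    intro s hs
    refine ⟨fun j => decide (0 < s.1.1 j), s.1.2, mem_ball_zero_iff.2 hs, ?_⟩
    apply Subtype.ext
    rw [hφ _ _ (ball_subset_closedBall (mem_ball_zero_iff.2 hs))]
    have e : (mk3 fun j => sg (decide (0 < s.1.1 j)) * pt X s.1.2 j) = s.1.1 := by
      have e1 : (fun j => sg (decide (0 < s.1.1 j)) * pt X s.1.2 j) = fun j => s.1.1 j := by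
        funext j
        exact sign_mul (s.2.2 j)
      rw [e1]
      exact mk3_eta _
    rw [e]
  refine ⟨B, ?_⟩
  refine
    { t2 := inferInstance
      cpt := isCompact_iff_compactSpace.1 hc
      cont := continuous_fst.comp continuous_subtype_val
      ball := fun p => hb p.1 p.2
      bV := hV
      bG := fun σ j => by rw [hGG σ]
      disj := ?_
      cov := ?_ }
  · intro σ σ' hne'
    rw [Function.onFun, Set.disjoint_left]
    rintro s ⟨w, hw, rfl⟩ ⟨w', hw', hww⟩
    apply hne'
    have h1 := congrArg Subtype.val hww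
    rw [hφ _ _ (ball_subset_closedBall hw), hφ _ _ (ball_subset_closedBall hw')] at h1
    have h2 : w' = w := congrArg Prod.snd h1
    have h3 := congrArg Prod.fst h1
    rw [h2] at h3
    funext j
    have h4 : sg (σ' j) * pt X w j = sg (σ j) * pt X w j := by
      have := congrArg (fun y : Euc 3 => y j) h3
      exact this
    have h5 := hG.pos.pos w hw j
    exact (sg_inj (mul_right_cancel₀ h5.ne' h4)).symm
  · intro s
    rcases lt_or_eq_of_le s.2.1 with hs | hs
    · obtain ⟨σ, hσ⟩ := hbig s hs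
      refine ⟨B σ, by rw [hV]; exact hσ, ?_⟩
      have e : {w | w ∈ (B σ).V ∧ ∀ σ', (B σ).φ w ∉ (B σ').φ '' ball 0 1} = ∅ := by
        apply Set.eq_empty_of_forall_notMem
        rintro w ⟨hw, hw'⟩
        rw [hV] at hw
        exact hw' σ ⟨w, hw, rfl⟩
      rw [e, measure_empty]
    · have hz : s.1.2 = Complex.exp ((Complex.arg s.1.2 : ℝ) * Complex.I) := by
        have := Complex.norm_mul_exp_arg_mul_I s.1.2
        rw [hs, Complex.ofReal_one, one_mul] at this
        exact this.symm
      have hR : ∃ R : Raw X, s.1 ∈ R.F '' R.V ∧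
          volume {w | w ∈ R.V ∧ ‖(R.F w).2‖ = 1} = 0 := by
        obtain ⟨eR, hR⟩ := hG.good.edR (Complex.arg s.1.2)
        obtain ⟨eL, hL⟩ := hG.good.edL (Complex.arg s.1.2)
        by_cases hRL : eR = eL
        · subst hRL
          exact hREG D X lam T hG _ eR hR hL s.1 s.2 hz
        · cases eL with
          | W j => exact hCO1 D X lam T hG _ eR j hR hL hRL s.1 s.2 hz
          | H =>
            cases eR with
            | W i => exact hCO2 D X lam T hG _ i hR hL s.1 s.2 hz
            | H => exact absurd rfl hRL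
      obtain ⟨R, ⟨w0, hw0, hw0'⟩, hvol⟩ := hR
      obtain ⟨P, h1, h2, h3⟩ := hMKP X R hne
      refine ⟨P, ⟨w0, by rw [h1]; exact hw0, ?_⟩, ?_⟩
      · apply Subtype.ext
        rw [h3 w0 (R.VK hw0), hw0']
      · refine measure_mono_null ?_ hvol
        rintro w ⟨hw, hw'⟩
        rw [h1] at hw
        refine ⟨hw, ?_⟩
        have h4 := h3 w (R.VK hw)
        rw [← h4]
        rcases lt_or_eq_of_le (P.φ w).2.1 with h5 | h5
        · obtain ⟨σ, hσ⟩ := hbig _ h5
          exact absurd hσ (hw' σ)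
        · exact h5

end G2
end Pool.Agent.FBM
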