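import Pool.Agent.FBM.G.StmtS
import Pool.Agent.FBM.G.S.CO1

/-!
# FBM block G2, module CO2: pieces at junctions with the free edge on the left
-/

open Set Metric MeasureTheory Filter Topology
open FBM.F (GoodD PosP FIn)

namespace Pool.Agent.FBM
namespace G2

namespace CO2

/-- the rotation `w ↦ -i w` -/
noncomputable def rt (w : ℂ) : ℂ := -Complex.I * w

theorem rt_re (w : ℂ) : (rt w).re = w.im := by simp [rt]

theorem rt_im (w : ℂ) : (rt w).im = -w.re := by simp [rt]

theorem rt_norm (w : ℂ) : ‖rt w‖ = ‖w‖ := by simp [rt]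

theorem rt_zero : rt 0 = 0 := by simp [rt]

theorem rt_I (w : ℂ) : rt (Complex.I * w) = w := by
  rw [rt, ← mul_assoc, neg_mul, Complex.I_mul_I, neg_neg, one_mul]

theorem I_rt (w : ℂ) : Complex.I * rt w = w := by
  rw [rt, ← mul_assoc, mul_neg, Complex.I_mul_I, neg_neg, one_mul]

theorem rt_inj : Function.Injective rt := by
  intro a b h
  rw [← I_rt a, h, I_rt]

theorem continuous_rt : Continuous rt := by
  unfold rt
  fun_prop

theorem deriv_rt (s : ℝ) (g : ℂ → ℂ) (w : ℂ) (hg : DifferentiableAt ℂ g (rt w)) :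
    deriv (fun z => (s : ℂ) * g (rt z)) w = (s : ℂ) * (-Complex.I * deriv g (rt w)) := by
  have h1 : HasDerivAt rt (-Complex.I) w := by
    have h0 := (hasDerivAt_id w).const_mul (-Complex.I)
    rw [mul_one] at h0
    exact h0
  have h2 := (hg.hasDerivAt.comp w h1).const_mul (s : ℂ)
  have h3 := h2.deriv
  rw [show (fun z => (s : ℂ) * g (rt z)) = fun y => (s : ℂ) * (g ∘ rt) y from rfl, h3]
  ring

/-- the null sets are preserved by the rotation -/
theorem null {S : Set ℂ} (h : volume S = 0) : volume (rt ⁻¹' S) = 0 := by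
  let a : Circle := ⟨-Complex.I, by simp [Submonoid.unitSphere]⟩
  have h1 : rt ⁻¹' S = (rotation a) ⁻¹' S := rfl
  rw [h1, (LinearIsometryEquiv.measurePreserving (rotation a)).measure_preimage
    (NullMeasurableSet.of_null h), h]

theorem sph {G : Fin 3 → ℂ → ℂ} {ρ : ℝ} {i : Fin 3} (hR : OnReal G ρ (.W i)) (hI : OnImag G ρ .H)
    {x : ℝ} (hx : |x| < ρ) : ∑ k, (G k ((x : ℂ) * Complex.I)).re ^ 2 = 1 := by
  rcases le_total 0 x with h | h
  · exact hI x h (by rwa [abs_of_nonneg h] at hx)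
  · have h1 := hI (-x) (by linarith) (by rwa [abs_of_nonpos h] at hx)
    rw [← h1]
    refine Finset.sum_congr rfl fun k _ => ?_
    have h2 := hR k (((-x : ℝ) : ℂ) * Complex.I) (by
      rw [norm_mul, Complex.norm_I, mul_one, Complex.norm_real, Real.norm_eq_abs, abs_neg]
      exact hx)
    have h3 : (starRingEnd ℂ) (((-x : ℝ) : ℂ) * Complex.I) = (x : ℂ) * Complex.I := by
      rw [map_mul, Complex.conj_ofReal, Complex.conj_I]
      push_cast
      ring
    rw [h3] at h2
    rw [h2]
    split_ifs <;> ring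

end CO2

open CO2 in
theorem t_CO2 (hSGC : Stmt_SGC) (hCNC : Stmt_CNC) (hFLD : Stmt_FLD) (hFL0 : Stmt_FL0) :
    Stmt_CO2 := by
  intro D X lam T hG θ i hR hL p hp hp2
  have hne : (Edge.W i) ≠ Edge.H := by simp
  obtain ⟨ρ, G, hC, -, hPI, hd⟩ := hG.corP θ (.W i) .H hR hL hne
  obtain ⟨r1, hr10, hr1ρ, hSg⟩ := hSGC D X lam T hG θ (.W i) .H ρ G hR hL hne hC
  obtain ⟨hconf, r2, hr20, hr2ρ, himm⟩ := hCNC D X lam T hG θ (.W i) .H ρ G hC hd
  set r := min r1 r2 with hr
  have hr0 : 0 < r := lt_min hr10 hr20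
  have hrρ : r < ρ := (min_le_left _ _).trans_lt hr1ρ
  have hr1 : r < 1 := hrρ.trans hC.pos.2
  have hS := hSg r hr0 (min_le_left _ _)
  obtain ⟨s, hs, hs0⟩ := hFL0 X θ (.W i) (some .H) r G hr0 hr1 hS p hp hp2
  obtain ⟨hKc, hmem, hcont, hinj, ⟨U, hUo, hUi⟩, hnull⟩ :=
    hFLD X θ (.W i) (some .H) r G s hr0 hr1 (by simp) hS hs
  have hKeq : rt ⁻¹' KK (.W i) (some .H) r = (fun w => Complex.I * w) '' KK (.W i) (some .H) r := by
    ext w
    constructor
    · intro hw
      exact ⟨rt w, hw, I_rt w⟩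
    · rintro ⟨z, hz, rfl⟩
      change rt (Complex.I * z) ∈ KK (.W i) (some .H) r
      rw [rt_I]
      exact hz
  have hda : ∀ k, ∀ w : ℂ, ‖w‖ < ρ → DifferentiableAt ℂ (G k) (rt w) := by
    intro k w hw
    refine (hC.an k).differentiableAt (isOpen_ball.mem_nhds ?_)
    rw [mem_ball_zero_iff, rt_norm]
    exact hw
  refine ⟨{ c := 0, K := rt ⁻¹' KK (.W i) (some .H) r, V := rt ⁻¹' VV (.W i) (some .H) r,
            O := ball 0 r, F := fun w => FF θ (.W i) (some .H) s G (rt w),
            G := fun k z => (s k : ℂ) * G k (rt z), U := U,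
            Kc := ?_, Kh := ?_, VK := fun w hw => ⟨hw.1.le, hw.2⟩, Oo := isOpen_ball,
            VO := ?_, mem := fun w hw => hmem _ hw,
            cont := hcont.comp continuous_rt.continuousOn fun w hw => hw,
            inj := fun a ha b hb h => rt_inj (hinj ha hb h), Uo := hUo, img := ?_,
            an := ?_, conf := ?_, imm := ?_, eq := ?_, bd := ?_ }, ⟨0, ?_, ?_⟩, ?_⟩
  · rw [hKeq]
    exact hKc.image (by fun_prop)
  · intro w hw
    have h1 := hw.2.2 rfl
    rw [rt_re] at h1
    simpa using h1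
  · ext w
    constructor
    · intro hw
      have h1 := hw.2.2 rfl
      rw [rt_re] at h1
      have h2 := hw.1
      rw [rt_norm] at h2
      exact ⟨by simpa using h2, by simpa using h1⟩
    · rintro ⟨h1, h2⟩
      refine ⟨by rw [rt_norm]; simpa using h1, fun h => ?_, fun _ => ?_⟩
      · simp at h
      · rw [rt_re]
        simpa using h2
  · rw [← hUi]
    ext q
    constructor
    · rintro ⟨w, hw, rfl⟩
      exact ⟨rt w, hw, rfl⟩
    · rintro ⟨z, hz, rfl⟩
      refine ⟨Complex.I * z, ?_, ?_⟩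
      · change rt (Complex.I * z) ∈ VV (.W i) (some .H) r
        rw [rt_I]
        exact hz
      · change FF θ (.W i) (some .H) s G (rt (Complex.I * z)) = _
        rw [rt_I]
  · intro k w hw
    have hw' : ‖w‖ < ρ := (mem_ball_zero_iff.1 hw).trans hrρ
    have h1 : DifferentiableAt ℂ rt w := by
      unfold rt
      fun_prop
    exact ((((hda k w hw').comp w h1)).const_mul (s k : ℂ)).differentiableWithinAt
  · intro w hw
    have hw' : ‖w‖ < ρ := by
      have := hw.1.trans hrρ
      rwa [rt_norm] at this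
    have h1 := hconf (rt w) (by rw [rt_norm]; exact hw')
    have h2 : ∀ k, deriv (fun z => (s k : ℂ) * G k (rt z)) w ^ 2 = -(deriv (G k) (rt w) ^ 2) := by
      intro k
      rw [deriv_rt _ _ _ (hda k w hw'), mul_pow, CO1.sq_oneC (hs k), mul_pow, neg_sq,
        Complex.I_sq]
      ring
    simp only [h2, Finset.sum_neg_distrib, h1, neg_zero]
  · intro w hw
    have hw' : ‖w‖ < ρ := by
      have := hw.1.trans hrρ
      rwa [rt_norm] at this
    obtain ⟨k, hk⟩ := himm (rt w) (hw.1.le.trans (min_le_right _ _))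
    refine ⟨k, ?_⟩
    rw [deriv_rt _ _ _ (hda k w hw')]
    exact mul_ne_zero (CO1.ne_zeroC (hs k)) (mul_ne_zero (neg_ne_zero.2 Complex.I_ne_zero) hk)
  · intro w hw k
    change s k * (G k (rt w)).re = ((s k : ℂ) * G k (rt w)).re
    rw [Complex.re_ofReal_mul]
  · intro w hw him
    have hw' : ‖w‖ < ρ := by
      have := hw.1.trans hrρ
      rwa [rt_norm] at this
    have hw0 : w.im = 0 := by simpa using him
    have hrt : rt w = ((-w.re : ℝ) : ℂ) * Complex.I := by
      apply Complex.ext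
      · rw [rt_re, hw0]
        simp
      · rw [rt_im]
        simp
    have hx : |(-w.re)| < ρ := by
      rw [abs_neg]
      exact (Complex.abs_re_le_norm w).trans_lt hw'
    refine ⟨?_, ?_⟩
    · simp only [Complex.re_ofReal_mul, mul_pow, CO1.sq_one (hs _), one_mul]
      rw [hrt]
      exact sph hC.bdR hC.bdL hx
    · obtain ⟨κ, hκ⟩ := hPI rfl (-w.re) hx
      refine ⟨-κ, fun k => ?_⟩
      rw [deriv_rt _ _ _ (hda k w hw'), Complex.im_ofReal_mul, Complex.re_ofReal_mul]
      have h1 : (-Complex.I * deriv (G k) (rt w)).im = -(deriv (G k) (rt w)).re := by simp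
      rw [h1, hrt, hκ k]
      ring
  · change rt 0 ∈ VV (.W i) (some .H) r
    rw [rt_zero]
    refine ⟨by simpa using hr0, fun h => ?_, fun _ => le_of_eq Complex.zero_re.symm⟩
    simp at h
  · change FF θ (.W i) (some .H) s G (rt 0) = p
    rw [rt_zero]
    exact hs0
  · exact null hnull

end G2
end Pool.Agent.FBM
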