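import Pool.Agent.FBM.G.StmtS

open Set Metric MeasureTheory Filter Topology

namespace Pool.Agent.FBM
namespace G2

theorem stmt_G2_of (hGIN : Stmt_GIN) (hSRF : Stmt_SRF) : Pool.Agent.FBM.Stmt_G2 := by
  intro hD hEr hEc _ hFr hFc hFi m p hp X lam T hC hv
  obtain ⟨B, hB⟩ := hSRF _ X lam T (hGIN hD hEr hEc hFr hFc hFi m p hp X lam T hC hv)
  exact ⟨SS X, inferInstance, sx X, B, hB⟩

end G2
end Pool.Agent.FBM
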